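import Mathlib

/-!
# MP_103a5c_AH, block J: Jensen's inequality for real zeros (deterministic)
-/

open MeasureTheory Set Filter Topology Metric
open scoped Real
open Real (circleAverage circleAverage_mono circleAverage_add circleAverage_const circleAverage_smul)

namespace Pool.Agent.H87.AH

open Real in
lemma integral_abs_sin : ∫ x in (0:ℝ)..(2 * π), |Real.sin x| = 4 := by
  have h1 : ∫ x in (0:ℝ)..π, |Real.sin x| = 2 := by
    have h0 : ∫ x in (0:ℝ)..π, Real.sin x = 2 := by
      rw [integral_sin]; simp; norm_num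
    rw [← h0]
    apply intervalIntegral.integral_congr
    intro x hx
    rw [uIcc_of_le Real.pi_pos.le] at hx
    exact abs_of_nonneg (Real.sin_nonneg_of_nonneg_of_le_pi hx.1 hx.2)
  have h2 : ∫ x in π..(2 * π), |Real.sin x| = 2 := by
    have e : ∫ x in (0:ℝ)..π, |Real.sin (x + π)| = ∫ x in (0 + π)..(π + π), |Real.sin x| := by
      rw [intervalIntegral.integral_comp_add_right (fun x => |Real.sin x|)]
    have e2 : ∫ x in (0:ℝ)..π, |Real.sin (x + π)| = ∫ x in (0:ℝ)..π, |Real.sin x| := by
      simp [Real.sin_add_pi]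
    rw [show (2 * π) = π + π by ring, show ∫ x in π..(π + π), |Real.sin x| = ∫ x in (0 + π)..(π + π), |Real.sin x| by
      rw [zero_add], ← e, e2, h1]
  rw [← intervalIntegral.integral_add_adjacent_intervals (b := π), h1, h2]
  · norm_num
  · exact (Real.continuous_sin.abs).intervalIntegrable _ _
  · exact (Real.continuous_sin.abs).intervalIntegrable _ _

lemma circleAverage_abs_im_le (x₀ Y R : ℝ) (hY : 0 ≤ Y) (hR : 0 ≤ R) :
    circleAverage (fun z : ℂ => |z.im|) ((x₀ : ℂ) - Y * Complex.I) R ≤ 2 * R / π + Y := by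
  unfold Real.circleAverage
  have h : ∫ θ in (0:ℝ)..(2 * π), |(circleMap ((x₀ : ℂ) - Y * Complex.I) R θ).im| ≤
      ∫ θ in (0:ℝ)..(2 * π), (R * |Real.sin θ| + Y) := by
    apply intervalIntegral.integral_mono_on (by positivity)
    · apply Continuous.intervalIntegrable
      exact (Complex.continuous_im.comp (continuous_circleMap _ _)).abs
    · apply Continuous.intervalIntegrable
      fun_prop
    · intro θ _
      have : (circleMap ((x₀ : ℂ) - Y * Complex.I) R θ).im = R * Real.sin θ - Y := by
        simp [circleMap, Complex.exp_im]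
        ring
      rw [this]
      calc |R * Real.sin θ - Y| ≤ |R * Real.sin θ| + |Y| := abs_sub _ _
        _ = R * |Real.sin θ| + Y := by rw [abs_mul, abs_of_nonneg hR, abs_of_nonneg hY]
  have h2 : ∫ θ in (0:ℝ)..(2 * π), (R * |Real.sin θ| + Y) = R * 4 + 2 * π * Y := by
    rw [intervalIntegral.integral_add, intervalIntegral.integral_const_mul, integral_abs_sin,
      intervalIntegral.integral_const]
    · simp
    · exact (continuous_const.mul Real.continuous_sin.abs).intervalIntegrable _ _
    · exact continuous_const.intervalIntegrable _ _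
  rw [smul_eq_mul]
  calc (2 * π)⁻¹ * ∫ θ in (0:ℝ)..(2 * π), |(circleMap ((x₀ : ℂ) - Y * Complex.I) R θ).im|
      ≤ (2 * π)⁻¹ * (R * 4 + 2 * π * Y) := by
        rw [← h2]; exact mul_le_mul_of_nonneg_left h (by positivity)
    _ = 2 * R / π + Y := by
        have := Real.pi_pos
        field_simp
        ring

/-- Jensen's inequality in one disc with centre `x₀ - iY`, counting distinct real zeros. -/
theorem jensen_disc (f : ℂ → ℂ) (hf : Differentiable ℂ f) (K Λ : ℝ) (hK : 1 ≤ K) (hΛ : 0 ≤ Λ)
    (hb : ∀ z, ‖f z‖ ≤ K * Real.exp (Λ * |z.im|)) (A : Finset ℝ) (hA : ∀ x ∈ A, f x = 0)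
    (x₀ Y R : ℝ) (hY : 0 ≤ Y) (hR : 0 < R) (h0 : f ((x₀ : ℂ) - Y * Complex.I) ≠ 0) :
    ∑ x ∈ A, (Real.log R - Real.log ‖((x₀ : ℂ) - Y * Complex.I) - x‖)⁺ ≤
      Real.log K + Λ * (2 * R / π + Y) - Real.log ‖f ((x₀ : ℂ) - Y * Complex.I)‖ := by
  set c : ℂ := (x₀ : ℂ) - Y * Complex.I with hc
  have han : AnalyticOnNhd ℂ f (closedBall c |R|) := fun z _ => hf.analyticAt z
  have J := han.circleAverage_log_norm hR.ne' h0
  have hav : circleAverage (fun z => Real.log ‖f z‖) c R ≤ Real.log K + Λ * (2 * R / π + Y) := by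
    have h1 : circleAverage (fun z => Real.log ‖f z‖) c R ≤
        circleAverage (fun z : ℂ => Real.log K + Λ * |z.im|) c R := by
      apply circleAverage_mono
      · exact (han.mono sphere_subset_closedBall).meromorphicOn.circleIntegrable_log_norm
      · apply ContinuousOn.circleIntegrable'
        exact (continuous_const.add (continuous_const.mul Complex.continuous_im.abs)).continuousOn
      · intro z _
        rcases eq_or_ne (f z) 0 with h | h
        · rw [h]
          simp only [norm_zero, Real.log_zero]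
          have := Real.log_nonneg hK
          positivity
        · have hz := hb z
          calc Real.log ‖f z‖ ≤ Real.log (K * Real.exp (Λ * |z.im|)) :=
                Real.log_le_log (norm_pos_iff.mpr h) hz
            _ = Real.log K + Λ * |z.im| := by
                rw [Real.log_mul (by positivity) (Real.exp_pos _).ne', Real.log_exp]
    have h2 : circleAverage (fun z : ℂ => Real.log K + Λ * |z.im|) c R =
        Real.log K + Λ * circleAverage (fun z : ℂ => |z.im|) c R := by
      have : (fun z : ℂ => Real.log K + Λ * |z.im|) = (fun _ => Real.log K) + (Λ • fun z : ℂ => |z.im|) := by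
        ext z; simp
      rw [this, circleAverage_add, circleAverage_const, circleAverage_smul]
      · simp
      · exact ContinuousOn.circleIntegrable' continuousOn_const
      · exact ContinuousOn.circleIntegrable' (continuous_const.smul Complex.continuous_im.abs).continuousOn
    rw [h2] at h1
    have h3 := circleAverage_abs_im_le x₀ Y R hY hR.le
    nlinarith [mul_le_mul_of_nonneg_left h3 hΛ]
  have hfin : (Function.support fun u : ℂ => ((MeromorphicOn.divisor f (closedBall c |R|) u : ℤ) : ℝ) *
      Real.log (R * ‖c - u‖⁻¹)).Finite := by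
    refine ((MeromorphicOn.divisor f (closedBall c |R|)).finiteSupport (isCompact_closedBall c |R|)).subset ?_
    intro u hu
    simp only [Function.mem_support, ne_eq, mul_eq_zero, Int.cast_eq_zero, not_or] at hu ⊢
    exact hu.1
  have hnn : ∀ u : ℂ, 0 ≤ ((MeromorphicOn.divisor f (closedBall c |R|) u : ℤ) : ℝ) * Real.log (R * ‖c - u‖⁻¹) := by
    intro u
    by_cases hu : u ∈ closedBall c |R|
    · have h1 : (0:ℤ) ≤ MeromorphicOn.divisor f (closedBall c |R|) u :=
        (MeromorphicOn.AnalyticOnNhd.divisor_nonneg han) u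
      have h1' : (0:ℝ) ≤ ((MeromorphicOn.divisor f (closedBall c |R|) u : ℤ) : ℝ) := by exact_mod_cast h1
      rcases eq_or_ne u c with rfl | huc
      · simp
      have h2 : 0 ≤ Real.log (R * ‖c - u‖⁻¹) := by
        apply Real.log_nonneg
        have hpos : 0 < ‖c - u‖ := norm_pos_iff.mpr (sub_ne_zero.mpr (Ne.symm huc))
        rw [← div_eq_mul_inv, le_div_iff₀ hpos, one_mul]
        rw [mem_closedBall, dist_eq_norm, abs_of_pos hR, norm_sub_rev] at hu
        exact hu
      exact mul_nonneg h1' h2
    · have : MeromorphicOn.divisor f (closedBall c |R|) u = 0 := by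
        exact Function.locallyFinsuppWithin.apply_eq_zero_of_notMem _ hu
      simp [this]
  have hsum : ∑ x ∈ A, (Real.log R - Real.log ‖c - (x : ℂ)‖)⁺ ≤
      ∑ᶠ u, ((MeromorphicOn.divisor f (closedBall c |R|) u : ℤ) : ℝ) * Real.log (R * ‖c - u‖⁻¹) := by
    classical
    rw [finsum_eq_sum _ hfin]
    have hterm : ∀ x ∈ A, (Real.log R - Real.log ‖c - (x : ℂ)‖)⁺ ≤
        ((MeromorphicOn.divisor f (closedBall c |R|) (x : ℂ) : ℤ) : ℝ) * Real.log (R * ‖c - (x:ℂ)‖⁻¹) := by
      intro x hx
      have hxc : (x : ℂ) ≠ c := by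
        intro h; apply h0; rw [← h]; exact hA x hx
      have hpos : 0 < ‖c - (x:ℂ)‖ := norm_pos_iff.mpr (sub_ne_zero.mpr (Ne.symm hxc))
      have hlog : Real.log (R * ‖c - (x:ℂ)‖⁻¹) = Real.log R - Real.log ‖c - (x : ℂ)‖ := by
        rw [Real.log_mul hR.ne' (inv_ne_zero hpos.ne'), Real.log_inv]; ring
      by_cases hu : (x : ℂ) ∈ closedBall c |R|
      · have h1 : (1:ℤ) ≤ MeromorphicOn.divisor f (closedBall c |R|) (x : ℂ) := by
          rw [MeromorphicOn.AnalyticOnNhd.divisor_apply han hu]
          have h2 : analyticOrderAt f (x : ℂ) ≠ 0 := by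
            rw [(han _ hu).analyticOrderAt_ne_zero]
            exact hA x hx
          have h3 : analyticOrderAt f (x : ℂ) ≠ ⊤ := by
            intro h
            have h4 : ∀ᶠ z in 𝓝 (x : ℂ), f z = 0 := analyticOrderAt_eq_top.mp h
            have h5 : f = 0 := by
              have : AnalyticOnNhd ℂ f univ := fun z _ => hf.analyticAt z
              have h6 := this.eqOn_zero_of_preconnected_of_eventuallyEq_zero isPreconnected_univ (mem_univ (x:ℂ)) h4
              ext z; exact h6 (mem_univ z)
            apply h0; rw [h5]; rfl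
          obtain ⟨n, hn⟩ := ENat.ne_top_iff_exists.mp h3
          rw [← hn] at h2 ⊢
          have : n ≠ 0 := by
            intro h; apply h2; rw [h]; rfl
          have e : ENat.map (Nat.cast : ℕ → ℤ) (n : ℕ∞) = ((n : ℤ) : WithTop ℤ) := by
            rfl
          rw [e, WithTop.untop₀_coe]
          omega
        have h1' : (1:ℝ) ≤ ((MeromorphicOn.divisor f (closedBall c |R|) (x : ℂ) : ℤ) : ℝ) := by exact_mod_cast h1
        have h2 : 0 ≤ Real.log R - Real.log ‖c - (x : ℂ)‖ := by
          rw [mem_closedBall, dist_eq_norm, abs_of_pos hR, norm_sub_rev] at hu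
          have := Real.log_le_log hpos hu
          linarith
        rw [hlog, posPart_eq_self.mpr h2]
        nlinarith
      · have h2 : Real.log R - Real.log ‖c - (x : ℂ)‖ ≤ 0 := by
          rw [mem_closedBall, dist_eq_norm, abs_of_pos hR, norm_sub_rev, not_le] at hu
          have := Real.log_le_log hR hu.le
          linarith
        rw [posPart_eq_zero.mpr h2]
        exact hnn _
    calc ∑ x ∈ A, (Real.log R - Real.log ‖c - (x : ℂ)‖)⁺
        ≤ ∑ x ∈ A, ((MeromorphicOn.divisor f (closedBall c |R|) (x : ℂ) : ℤ) : ℝ) * Real.log (R * ‖c - (x:ℂ)‖⁻¹) :=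
          Finset.sum_le_sum hterm
      _ = ∑ u ∈ A.image (fun x : ℝ => (x : ℂ)), ((MeromorphicOn.divisor f (closedBall c |R|) u : ℤ) : ℝ) * Real.log (R * ‖c - u‖⁻¹) := by
          rw [Finset.sum_image]
          intro x _ y _ h
          exact Complex.ofReal_injective h
      _ ≤ ∑ u ∈ A.image (fun x : ℝ => (x : ℂ)) ∪ hfin.toFinset, ((MeromorphicOn.divisor f (closedBall c |R|) u : ℤ) : ℝ) * Real.log (R * ‖c - u‖⁻¹) := by
          apply Finset.sum_le_sum_of_subset_of_nonneg Finset.subset_union_left
          intro u _ _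
          exact hnn u
      _ = ∑ u ∈ hfin.toFinset, ((MeromorphicOn.divisor f (closedBall c |R|) u : ℤ) : ℝ) * Real.log (R * ‖c - u‖⁻¹) := by
          symm
          apply Finset.sum_subset Finset.subset_union_right
          intro u _ hu
          simp only [Set.Finite.mem_toFinset, Function.mem_support, ne_eq, not_not] at hu
          exact hu
  linarith

end Pool.Agent.H87.AH
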