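import Mathlib
import Pool.Agent.H87.AH.J1

/-!
# MP_103a5c_AH, block J2: counting real zeros of entire functions of exponential type, by averaging Jensen's inequality
over the centre
-/

open MeasureTheory Set Filter Topology Metric
open scoped Real

namespace Pool.Agent.H87.AH

lemma hasDerivAt_prim (Y : ℝ) (hY : 0 < Y) (u : ℝ) :
    HasDerivAt (fun u : ℝ => u / 2 * Real.log (u ^ 2 + Y ^ 2) - u + Y * Real.arctan (u / Y))
      (1 / 2 * Real.log (u ^ 2 + Y ^ 2)) u := by
  have hp : 0 < u ^ 2 + Y ^ 2 := by positivity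
  have h1 : HasDerivAt (fun u : ℝ => u ^ 2 + Y ^ 2) (2 * u) u := by
    simpa using (hasDerivAt_pow 2 u).add_const (Y ^ 2)
  have h2 := h1.log hp.ne'
  have h3 : HasDerivAt (fun u : ℝ => u / 2) (1 / 2) u := (hasDerivAt_id u).div_const 2
  have h4 : HasDerivAt (fun u : ℝ => u / Y) (1 / Y) u := (hasDerivAt_id u).div_const Y
  have h5 := (h4.arctan).const_mul Y
  have h6 := ((h3.mul h2).sub (hasDerivAt_id u)).add h5
  refine h6.congr_deriv ?_
  have : 1 + (u / Y) ^ 2 ≠ 0 := by positivity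
  field_simp
  ring

/-- `∫_{x-R}^{x+R} (log R - log |x₀ - iY - x|) dx₀ ≥ 2R - 5Y` -/
lemma integral_log_ge (x Y R : ℝ) (hY : 0 < Y) (hYR : Y ≤ R) :
    2 * R - 5 * Y ≤ ∫ x₀ in (x - R)..(x + R), (Real.log R - 1 / 2 * Real.log ((x₀ - x) ^ 2 + Y ^ 2)) := by
  have hR : 0 < R := by linarith
  have e1 : ∫ x₀ in (x - R)..(x + R), (Real.log R - 1 / 2 * Real.log ((x₀ - x) ^ 2 + Y ^ 2)) =
      ∫ u in (-R)..R, (Real.log R - 1 / 2 * Real.log (u ^ 2 + Y ^ 2)) := by
    rw [intervalIntegral.integral_comp_sub_right (fun u => Real.log R - 1 / 2 * Real.log (u ^ 2 + Y ^ 2)) x]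
    congr 1 <;> ring
  have hc : Continuous fun u : ℝ => 1 / 2 * Real.log (u ^ 2 + Y ^ 2) := by
    apply Continuous.mul continuous_const
    apply Continuous.log (by fun_prop)
    intro u; positivity
  rw [e1, intervalIntegral.integral_sub (continuous_const.intervalIntegrable _ _) (hc.intervalIntegrable _ _),
    intervalIntegral.integral_const]
  rw [intervalIntegral.integral_eq_sub_of_hasDerivAt (fun u _ => hasDerivAt_prim Y hY u) (hc.intervalIntegrable _ _)]
  have hat : Real.arctan (R / Y) ≤ 8 / 5 := by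
    have := Real.arctan_lt_pi_div_two (R / Y)
    have := Real.pi_lt_d2
    linarith
  have hneg : Real.arctan (-R / Y) = - Real.arctan (R / Y) := by rw [neg_div, Real.arctan_neg]
  rw [hneg, neg_sq]
  have hlog : Real.log (R ^ 2 + Y ^ 2) ≤ 2 * Real.log R + Y ^ 2 / R ^ 2 := by
    have e : R ^ 2 + Y ^ 2 = R ^ 2 * (1 + Y ^ 2 / R ^ 2) := by field_simp
    rw [e, Real.log_mul (by positivity) (by positivity), Real.log_pow]
    have := Real.log_le_sub_one_of_pos (show 0 < 1 + Y ^ 2 / R ^ 2 by positivity)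
    push_cast
    linarith
  have hsm : R * (Y ^ 2 / R ^ 2) ≤ Y := by
    have : R * (Y ^ 2 / R ^ 2) = Y * (Y / R) := by field_simp
    rw [this]
    have : Y / R ≤ 1 := (div_le_one hR).mpr hYR
    nlinarith
  simp only [smul_eq_mul]
  nlinarith [mul_le_mul_of_nonneg_left hlog hR.le, mul_le_mul_of_nonneg_left hat hY.le]

/-- Counting distinct real zeros: Jensen averaged over the centre. -/
theorem zeros_count (f : ℂ → ℂ) (hf : Differentiable ℂ f) (K Λ : ℝ) (hK : 1 ≤ K) (hΛ : 0 ≤ Λ)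
    (hb : ∀ z, ‖f z‖ ≤ K * Real.exp (Λ * |z.im|)) (Y R m : ℝ) (hY : 0 < Y) (hYR : Y ≤ R) (hm : 0 < m)
    (hlow : ∀ x₀ : ℝ, m ≤ ‖f ((x₀ : ℂ) - Y * Complex.I)‖) (U H : ℝ) (hH : 0 ≤ H)
    (A : Finset ℝ) (hA : ∀ x ∈ A, f x = 0) (hAI : ∀ x ∈ A, U ≤ x ∧ x ≤ U + H) :
    (A.card : ℝ) * (2 * R - 5 * Y) ≤ (H + 2 * R) * (Real.log K + Λ * (2 * R / π + Y) - Real.log m) := by
  have hR : 0 < R := by linarith
  have hnorm : ∀ x₀ x : ℝ, Real.log ‖((x₀ : ℂ) - Y * Complex.I) - x‖ = 1 / 2 * Real.log ((x₀ - x) ^ 2 + Y ^ 2) := by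
    intro x₀ x
    have e : ‖((x₀ : ℂ) - Y * Complex.I) - x‖ = Real.sqrt ((x₀ - x) ^ 2 + Y ^ 2) := by
      rw [Complex.norm_def, Complex.normSq_apply]
      congr 1
      simp
      ring
    rw [e, Real.log_sqrt (by positivity)]
    ring
  have hJ : ∀ x₀ : ℝ, ∑ x ∈ A, (Real.log R - 1 / 2 * Real.log ((x₀ - x) ^ 2 + Y ^ 2))⁺ ≤
      Real.log K + Λ * (2 * R / π + Y) - Real.log m := by
    intro x₀
    have h0 : f ((x₀ : ℂ) - Y * Complex.I) ≠ 0 := by
      intro h
      have := hlow x₀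
      rw [h, norm_zero] at this
      linarith
    have h := jensen_disc f hf K Λ hK hΛ hb A hA x₀ Y R hY.le hR h0
    simp only [hnorm] at h
    have := Real.log_le_log hm (hlow x₀)
    linarith
  have hcont : ∀ x : ℝ, Continuous fun x₀ : ℝ => (Real.log R - 1 / 2 * Real.log ((x₀ - x) ^ 2 + Y ^ 2)) := by
    intro x
    apply Continuous.sub continuous_const
    apply Continuous.mul continuous_const
    apply Continuous.log (by fun_prop)
    intro u; positivity
  have hcontp : ∀ x : ℝ, Continuous fun x₀ : ℝ => (Real.log R - 1 / 2 * Real.log ((x₀ - x) ^ 2 + Y ^ 2))⁺ := by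
    intro x
    have : (fun x₀ : ℝ => (Real.log R - 1 / 2 * Real.log ((x₀ - x) ^ 2 + Y ^ 2))⁺) =
        fun x₀ => max (Real.log R - 1 / 2 * Real.log ((x₀ - x) ^ 2 + Y ^ 2)) 0 := by
      ext; rfl
    rw [this]
    exact (hcont x).max continuous_const
  have hI : ∫ x₀ in (U - R)..(U + H + R), ∑ x ∈ A, (Real.log R - 1 / 2 * Real.log ((x₀ - x) ^ 2 + Y ^ 2))⁺ ≤
      ∫ x₀ in (U - R)..(U + H + R), (Real.log K + Λ * (2 * R / π + Y) - Real.log m) := by
    apply intervalIntegral.integral_mono_on (by linarith)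
    · apply Continuous.intervalIntegrable
      exact continuous_finset_sum _ fun x _ => hcontp x
    · exact continuous_const.intervalIntegrable _ _
    · intro x₀ _
      exact hJ x₀
  rw [intervalIntegral.integral_const, intervalIntegral.integral_finset_sum
    (fun x _ => (hcontp x).intervalIntegrable _ _)] at hI
  have hterm : ∀ x ∈ A, 2 * R - 5 * Y ≤
      ∫ x₀ in (U - R)..(U + H + R), (Real.log R - 1 / 2 * Real.log ((x₀ - x) ^ 2 + Y ^ 2))⁺ := by
    intro x hx
    obtain ⟨h1, h2⟩ := hAI x hx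
    calc 2 * R - 5 * Y ≤ ∫ x₀ in (x - R)..(x + R), (Real.log R - 1 / 2 * Real.log ((x₀ - x) ^ 2 + Y ^ 2)) :=
          integral_log_ge x Y R hY hYR
      _ ≤ ∫ x₀ in (x - R)..(x + R), (Real.log R - 1 / 2 * Real.log ((x₀ - x) ^ 2 + Y ^ 2))⁺ := by
          apply intervalIntegral.integral_mono_on (by linarith) ((hcont x).intervalIntegrable _ _)
            ((hcontp x).intervalIntegrable _ _)
          intro x₀ _
          exact le_posPart _
      _ ≤ ∫ x₀ in (U - R)..(U + H + R), (Real.log R - 1 / 2 * Real.log ((x₀ - x) ^ 2 + Y ^ 2))⁺ := by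
          apply intervalIntegral.integral_mono_interval (by linarith) (by linarith) (by linarith)
          · exact Eventually.of_forall fun x₀ => posPart_nonneg _
          · exact (hcontp x).intervalIntegrable _ _
  have hsum : (A.card : ℝ) * (2 * R - 5 * Y) ≤ ∑ x ∈ A,
      ∫ x₀ in (U - R)..(U + H + R), (Real.log R - 1 / 2 * Real.log ((x₀ - x) ^ 2 + Y ^ 2))⁺ := by
    rw [← nsmul_eq_mul]
    exact Finset.card_nsmul_le_sum _ _ _ hterm
  have e : (U + H + R - (U - R)) = H + 2 * R := by ring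
  rw [e, smul_eq_mul] at hI
  linarith

end Pool.Agent.H87.AH
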