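import Mathlib
import Pool.Agent.H87.AH.J2

/-!
# MP_103a5c_AH, block J3: real zeros of `Re (e^{iψ} e^{iλLt} D(t))`, `D` a Dirichlet polynomial
-/

open MeasureTheory Set Filter Topology Metric
open scoped Real ComplexConjugate

namespace Pool.Agent.H87.AH

/-- `D(z) = ∑_{n ∈ S} d_n n^{-iz}` -/
noncomputable def DS (S : Finset ℕ) (d : ℕ → ℂ) (z : ℂ) : ℂ :=
  ∑ n ∈ S, d n * Complex.exp (-((Real.log n : ℂ) * z) * Complex.I)

/-- `a(t) = Re (e^{iψ} e^{iΛt} D(t))` -/
noncomputable def aS (S : Finset ℕ) (d : ℕ → ℂ) (ψ Λ : ℝ) (t : ℝ) : ℝ :=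
  (Complex.exp (((ψ + Λ * t : ℝ) : ℂ) * Complex.I) * DS S d t).re

/-- the entire extension of `aS` -/
noncomputable def aE (S : Finset ℕ) (d : ℕ → ℂ) (ψ Λ : ℝ) (z : ℂ) : ℂ :=
  1 / 2 * (Complex.exp (((ψ : ℂ) + Λ * z) * Complex.I) * DS S d z +
    Complex.exp (-(((ψ : ℂ) + Λ * z) * Complex.I)) * ∑ n ∈ S, conj (d n) * Complex.exp (((Real.log n : ℂ) * z) * Complex.I))

variable {S : Finset ℕ} {d : ℕ → ℂ} {ψ Λ ρ K κ : ℝ}

lemma aE_ofReal (t : ℝ) : aE S d ψ Λ (t : ℂ) = (aS S d ψ Λ t : ℂ) := by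
  unfold aE aS
  rw [Complex.re_eq_add_conj]
  have e : (((ψ + Λ * t : ℝ) : ℂ) * Complex.I) = (((ψ : ℂ) + Λ * t) * Complex.I) := by push_cast; ring
  rw [e, map_mul, ← Complex.exp_conj]
  have e2 : conj (DS S d (t : ℂ)) = ∑ n ∈ S, conj (d n) * Complex.exp (((Real.log n : ℂ) * t) * Complex.I) := by
    unfold DS
    rw [map_sum]
    apply Finset.sum_congr rfl
    intro n _
    rw [map_mul, ← Complex.exp_conj]
    congr 2
    simp [Complex.conj_ofReal, -Complex.natCast_log]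
  rw [e2]
  have e3 : conj (((ψ : ℂ) + Λ * t) * Complex.I) = -(((ψ : ℂ) + Λ * t) * Complex.I) := by
    simp [Complex.conj_ofReal]
  rw [e3]
  ring

lemma differentiable_DS : Differentiable ℂ (DS S d) := by
  unfold DS
  apply Differentiable.fun_sum
  intro n _
  fun_prop

lemma differentiable_aE : Differentiable ℂ (aE S d ψ Λ) := by
  unfold aE
  have h := differentiable_DS (S := S) (d := d)
  have h2 : Differentiable ℂ (fun z : ℂ => ∑ n ∈ S, conj (d n) * Complex.exp (((Real.log n : ℂ) * z) * Complex.I)) := by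
    apply Differentiable.fun_sum
    intro n _
    fun_prop
  fun_prop

lemma continuous_aS : Continuous (aS S d ψ Λ) := by
  have h := differentiable_DS (S := S) (d := d) |>.continuous
  unfold aS
  exact Complex.continuous_re.comp ((by fun_prop : Continuous fun t : ℝ => Complex.exp (((ψ + Λ * t : ℝ) : ℂ) * Complex.I)).mul
    (h.comp Complex.continuous_ofReal))

lemma norm_first (n : ℕ) (z : ℂ) : ‖Complex.exp (((ψ : ℂ) + Λ * z) * Complex.I) * Complex.exp (-((Real.log n : ℂ) * z) * Complex.I)‖ =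
    Real.exp ((Real.log n - Λ) * z.im) := by
  rw [norm_mul, Complex.norm_exp, Complex.norm_exp, ← Real.exp_add]
  congr 1
  simp [Complex.mul_re, Complex.add_re, -Complex.natCast_log]
  ring

lemma norm_second (n : ℕ) (z : ℂ) : ‖Complex.exp (-(((ψ : ℂ) + Λ * z) * Complex.I)) * Complex.exp (((Real.log n : ℂ) * z) * Complex.I)‖ =
    Real.exp ((Λ - Real.log n) * z.im) := by
  rw [norm_mul, Complex.norm_exp, Complex.norm_exp, ← Real.exp_add]
  congr 1
  simp [Complex.mul_re, Complex.add_re, -Complex.natCast_log]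
  ring

lemma norm_aE_le (hS : ∀ n ∈ S, 1 ≤ n ∧ Real.log n ≤ 2 * Λ) (hK : ∑ n ∈ S, ‖d n‖ ≤ K) (z : ℂ) :
    ‖aE S d ψ Λ z‖ ≤ K * Real.exp (Λ * |z.im|) := by
  have h1 : ‖Complex.exp (((ψ : ℂ) + Λ * z) * Complex.I) * DS S d z‖ ≤ K * Real.exp (Λ * |z.im|) := by
    unfold DS
    rw [Finset.mul_sum]
    calc ‖∑ n ∈ S, Complex.exp (((ψ : ℂ) + Λ * z) * Complex.I) * (d n * Complex.exp (-((Real.log n : ℂ) * z) * Complex.I))‖
        ≤ ∑ n ∈ S, ‖d n‖ * Real.exp (Λ * |z.im|) := by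
          apply norm_sum_le_of_le
          intro n hn
          have e : Complex.exp (((ψ : ℂ) + Λ * z) * Complex.I) * (d n * Complex.exp (-((Real.log n : ℂ) * z) * Complex.I)) =
            d n * (Complex.exp (((ψ : ℂ) + Λ * z) * Complex.I) * Complex.exp (-((Real.log n : ℂ) * z) * Complex.I)) := by ring
          rw [e, norm_mul, norm_first]
          apply mul_le_mul_of_nonneg_left _ (norm_nonneg _)
          apply Real.exp_le_exp.mpr
          obtain ⟨hn1, hn2⟩ := hS n hn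
          have hl : 0 ≤ Real.log n := Real.log_natCast_nonneg n
          rcases le_total 0 z.im with h | h
          · rw [abs_of_nonneg h]; nlinarith
          · rw [abs_of_nonpos h]; nlinarith
      _ = (∑ n ∈ S, ‖d n‖) * Real.exp (Λ * |z.im|) := by rw [Finset.sum_mul]
      _ ≤ K * Real.exp (Λ * |z.im|) := mul_le_mul_of_nonneg_right hK (Real.exp_pos _).le
  have h2 : ‖Complex.exp (-(((ψ : ℂ) + Λ * z) * Complex.I)) * ∑ n ∈ S, conj (d n) * Complex.exp (((Real.log n : ℂ) * z) * Complex.I)‖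
      ≤ K * Real.exp (Λ * |z.im|) := by
    rw [Finset.mul_sum]
    calc ‖∑ n ∈ S, Complex.exp (-(((ψ : ℂ) + Λ * z) * Complex.I)) * (conj (d n) * Complex.exp (((Real.log n : ℂ) * z) * Complex.I))‖
        ≤ ∑ n ∈ S, ‖d n‖ * Real.exp (Λ * |z.im|) := by
          apply norm_sum_le_of_le
          intro n hn
          have e : Complex.exp (-(((ψ : ℂ) + Λ * z) * Complex.I)) * (conj (d n) * Complex.exp (((Real.log n : ℂ) * z) * Complex.I)) =
            conj (d n) * (Complex.exp (-(((ψ : ℂ) + Λ * z) * Complex.I)) * Complex.exp (((Real.log n : ℂ) * z) * Complex.I)) := by ring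
          rw [e, norm_mul, norm_second, Complex.norm_conj]
          apply mul_le_mul_of_nonneg_left _ (norm_nonneg _)
          apply Real.exp_le_exp.mpr
          obtain ⟨hn1, hn2⟩ := hS n hn
          have hl : 0 ≤ Real.log n := Real.log_natCast_nonneg n
          rcases le_total 0 z.im with h | h
          · rw [abs_of_nonneg h]; nlinarith
          · rw [abs_of_nonpos h]; nlinarith
      _ = (∑ n ∈ S, ‖d n‖) * Real.exp (Λ * |z.im|) := by rw [Finset.sum_mul]
      _ ≤ K * Real.exp (Λ * |z.im|) := mul_le_mul_of_nonneg_right hK (Real.exp_pos _).le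
  unfold aE
  rw [norm_mul]
  have h3 := norm_add_le (Complex.exp (((ψ : ℂ) + Λ * z) * Complex.I) * DS S d z)
    (Complex.exp (-(((ψ : ℂ) + Λ * z) * Complex.I)) * ∑ n ∈ S, conj (d n) * Complex.exp (((Real.log n : ℂ) * z) * Complex.I))
  have h4 : ‖(1 / 2 : ℂ)‖ = 1 / 2 := by norm_num
  rw [h4]
  linarith

lemma norm_aE_ge (hS1 : 1 ∈ S) (hS : ∀ n ∈ S, 1 ≤ n ∧ Real.log n ≤ ρ) (hK : ∑ n ∈ S, ‖d n‖ ≤ K)
    (hκ : κ ≤ ‖d 1‖) (Y : ℝ) (hY : 0 ≤ Y) (h1 : K * Real.exp (-(Y * Real.log 2)) ≤ κ / 4)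
    (h2 : K * Real.exp (-((2 * Λ - ρ) * Y)) ≤ κ / 4) (x₀ : ℝ) :
    κ / 4 * Real.exp (Λ * Y) ≤ ‖aE S d ψ Λ ((x₀ : ℂ) - Y * Complex.I)‖ := by
  set z : ℂ := (x₀ : ℂ) - Y * Complex.I with hz
  have him : z.im = -Y := by simp [hz]
  have hK0 : 0 ≤ K := le_trans (Finset.sum_nonneg fun n _ => norm_nonneg _) hK
  -- the leading term
  have hlead : ‖Complex.exp (((ψ : ℂ) + Λ * z) * Complex.I) * (d 1 * Complex.exp (-((Real.log (1:ℕ) : ℂ) * z) * Complex.I))‖ =
      ‖d 1‖ * Real.exp (Λ * Y) := by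
    have e : Complex.exp (((ψ : ℂ) + Λ * z) * Complex.I) * (d 1 * Complex.exp (-((Real.log (1:ℕ) : ℂ) * z) * Complex.I)) =
      d 1 * (Complex.exp (((ψ : ℂ) + Λ * z) * Complex.I) * Complex.exp (-((Real.log (1:ℕ) : ℂ) * z) * Complex.I)) := by ring
    rw [e, norm_mul, norm_first, him]
    congr 2
    simp
  have hrest : ‖∑ n ∈ S.erase 1, Complex.exp (((ψ : ℂ) + Λ * z) * Complex.I) * (d n * Complex.exp (-((Real.log n : ℂ) * z) * Complex.I))‖ ≤
      κ / 4 * Real.exp (Λ * Y) := by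
    calc ‖∑ n ∈ S.erase 1, Complex.exp (((ψ : ℂ) + Λ * z) * Complex.I) * (d n * Complex.exp (-((Real.log n : ℂ) * z) * Complex.I))‖
        ≤ ∑ n ∈ S.erase 1, ‖d n‖ * (Real.exp (-(Y * Real.log 2)) * Real.exp (Λ * Y)) := by
          apply norm_sum_le_of_le
          intro n hn
          have e : Complex.exp (((ψ : ℂ) + Λ * z) * Complex.I) * (d n * Complex.exp (-((Real.log n : ℂ) * z) * Complex.I)) =
            d n * (Complex.exp (((ψ : ℂ) + Λ * z) * Complex.I) * Complex.exp (-((Real.log n : ℂ) * z) * Complex.I)) := by ring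
          rw [e, norm_mul, norm_first, him, ← Real.exp_add]
          apply mul_le_mul_of_nonneg_left _ (norm_nonneg _)
          apply Real.exp_le_exp.mpr
          obtain ⟨hne, hnS⟩ := Finset.mem_erase.mp hn
          have hn2 : 2 ≤ n := by
            have := (hS n hnS).1
            omega
          have : Real.log 2 ≤ Real.log n := Real.log_le_log (by norm_num) (by exact_mod_cast hn2)
          nlinarith
      _ = (∑ n ∈ S.erase 1, ‖d n‖) * (Real.exp (-(Y * Real.log 2)) * Real.exp (Λ * Y)) := by rw [Finset.sum_mul]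
      _ ≤ K * (Real.exp (-(Y * Real.log 2)) * Real.exp (Λ * Y)) := by
          apply mul_le_mul_of_nonneg_right _ (by positivity)
          exact le_trans (Finset.sum_le_sum_of_subset_of_nonneg (Finset.erase_subset _ _) fun n _ _ => norm_nonneg _) hK
      _ = (K * Real.exp (-(Y * Real.log 2))) * Real.exp (Λ * Y) := by ring
      _ ≤ κ / 4 * Real.exp (Λ * Y) := mul_le_mul_of_nonneg_right h1 (Real.exp_pos _).le
  have hsec : ‖Complex.exp (-(((ψ : ℂ) + Λ * z) * Complex.I)) * ∑ n ∈ S, conj (d n) * Complex.exp (((Real.log n : ℂ) * z) * Complex.I)‖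
      ≤ κ / 4 * Real.exp (Λ * Y) := by
    rw [Finset.mul_sum]
    calc ‖∑ n ∈ S, Complex.exp (-(((ψ : ℂ) + Λ * z) * Complex.I)) * (conj (d n) * Complex.exp (((Real.log n : ℂ) * z) * Complex.I))‖
        ≤ ∑ n ∈ S, ‖d n‖ * (Real.exp (-((2 * Λ - ρ) * Y)) * Real.exp (Λ * Y)) := by
          apply norm_sum_le_of_le
          intro n hn
          have e : Complex.exp (-(((ψ : ℂ) + Λ * z) * Complex.I)) * (conj (d n) * Complex.exp (((Real.log n : ℂ) * z) * Complex.I)) =
            conj (d n) * (Complex.exp (-(((ψ : ℂ) + Λ * z) * Complex.I)) * Complex.exp (((Real.log n : ℂ) * z) * Complex.I)) := by ring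
          rw [e, norm_mul, norm_second, Complex.norm_conj, him, ← Real.exp_add]
          apply mul_le_mul_of_nonneg_left _ (norm_nonneg _)
          apply Real.exp_le_exp.mpr
          have := (hS n hn).2
          nlinarith
      _ = (∑ n ∈ S, ‖d n‖) * (Real.exp (-((2 * Λ - ρ) * Y)) * Real.exp (Λ * Y)) := by rw [Finset.sum_mul]
      _ ≤ K * (Real.exp (-((2 * Λ - ρ) * Y)) * Real.exp (Λ * Y)) := mul_le_mul_of_nonneg_right hK (by positivity)
      _ = (K * Real.exp (-((2 * Λ - ρ) * Y))) * Real.exp (Λ * Y) := by ring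
      _ ≤ κ / 4 * Real.exp (Λ * Y) := mul_le_mul_of_nonneg_right h2 (Real.exp_pos _).le
  have hfirst : κ * Real.exp (Λ * Y) - κ / 4 * Real.exp (Λ * Y) ≤ ‖Complex.exp (((ψ : ℂ) + Λ * z) * Complex.I) * DS S d z‖ := by
    unfold DS
    rw [Finset.mul_sum, ← Finset.add_sum_erase _ _ hS1]
    have h := norm_sub_le_norm_add (Complex.exp (((ψ : ℂ) + Λ * z) * Complex.I) * (d 1 * Complex.exp (-((Real.log (1:ℕ) : ℂ) * z) * Complex.I)))
      (∑ n ∈ S.erase 1, Complex.exp (((ψ : ℂ) + Λ * z) * Complex.I) * (d n * Complex.exp (-((Real.log n : ℂ) * z) * Complex.I)))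
    rw [hlead] at h
    have := mul_le_mul_of_nonneg_right hκ (Real.exp_pos (Λ * Y)).le
    refine le_trans ?_ h
    linarith
  unfold aE
  rw [norm_mul]
  have h4 : ‖(1 / 2 : ℂ)‖ = 1 / 2 := by norm_num
  rw [h4]
  have h5 := norm_sub_le_norm_add (Complex.exp (((ψ : ℂ) + Λ * z) * Complex.I) * DS S d z)
    (Complex.exp (-(((ψ : ℂ) + Λ * z) * Complex.I)) * ∑ n ∈ S, conj (d n) * Complex.exp (((Real.log n : ℂ) * z) * Complex.I))
  linarith

end Pool.Agent.H87.AH
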