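import Mathlib

/-!
# MP_103a5c_AH, block E1: pairs of zeros in bins (deterministic)

If almost all pairs at distance `≤ b` are diagonal, then a set of zeros of small total weight is contained in few pairs at
distance `≤ r`.
-/

open Set Filter Topology
open scoped Real

namespace Pool.Agent.H87.AH

lemma nat_ineq {u n n' : ℕ} (h : u ≤ n) :
    (u : ℝ) * n' ≤ u + ((n : ℝ) ^ 2 - n) + ((n' : ℝ) ^ 2 - n') := by
  have h1 : (u : ℝ) ^ 2 - u ≤ (n : ℝ) ^ 2 - n := by
    rcases Nat.eq_zero_or_pos n with rfl | hn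
    · have : u = 0 := by omega
      subst this; simp
    · have hn1 : (1:ℝ) ≤ n := by exact_mod_cast hn
      have hu : (u : ℝ) ≤ n := by exact_mod_cast h
      have hu0 : (0:ℝ) ≤ u := Nat.cast_nonneg _
      nlinarith
  have h0 : (0:ℝ) ≤ (n : ℝ) ^ 2 - n := by
    rcases Nat.eq_zero_or_pos n with rfl | hn
    · simp
    · have hn1 : (1:ℝ) ≤ n := by exact_mod_cast hn
      nlinarith
  have hu0 : (0:ℝ) ≤ u := Nat.cast_nonneg _
  rcases Nat.lt_or_ge n' 2 with hn' | hn'
  · interval_cases n'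
    · simp; nlinarith
    · simp; nlinarith
  · have hn'2 : (2:ℝ) ≤ n' := by exact_mod_cast hn'
    nlinarith [sq_nonneg ((u:ℝ) - n')]

lemma sq_sub_nonneg (n : ℕ) : (0:ℝ) ≤ (n : ℝ) ^ 2 - n := by
  rcases Nat.eq_zero_or_pos n with rfl | hn
  · simp
  · have hn1 : (1:ℝ) ≤ n := by exact_mod_cast hn
    nlinarith

open Classical in
/-- The bin lemma. -/
theorem bins {ι : Type*} (F B : Finset ι) (hBF : B ⊆ F) (x : ι → ℝ) (m : ι → ℕ) (b r : ℝ) (M : ℕ) (hb : 0 < b)
    (hM : r + b ≤ M * b) :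
    ∑ i ∈ B, ∑ j ∈ F, (if |x i - x j| ≤ r then (m i : ℝ) * m j else 0) ≤
      (2 * M + 1) * (∑ i ∈ B, (m i : ℝ) +
        2 * (∑ i ∈ F, ∑ j ∈ F, (if |x i - x j| ≤ b then (m i : ℝ) * m j else 0) - ∑ i ∈ F, (m i : ℝ))) := by
  set β : ι → ℤ := fun i => ⌊x i / b⌋ with hβ
  set K : Finset ℤ := F.image β with hK
  set N : ℤ → ℕ := fun k => ∑ j ∈ F with β j = k, m j with hN
  set NB : ℤ → ℕ := fun k => ∑ j ∈ B with β j = k, m j with hNB
  have hNBN : ∀ k, NB k ≤ N k := by
    intro k
    apply Finset.sum_le_sum_of_subset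
    exact Finset.filter_subset_filter _ hBF
  have hN0 : ∀ k, k ∉ K → N k = 0 := by
    intro k hk
    apply Finset.sum_eq_zero
    intro j hj
    exfalso
    apply hk
    obtain ⟨hj1, hj2⟩ := Finset.mem_filter.mp hj
    rw [hK, Finset.mem_image]
    exact ⟨j, hj1, hj2⟩
  -- total mass
  have hsumN : ∑ k ∈ K, (N k : ℝ) = ∑ i ∈ F, (m i : ℝ) := by
    rw [← Finset.sum_fiberwise_of_maps_to (g := β) (t := K) (fun i hi => Finset.mem_image_of_mem β hi)]
    apply Finset.sum_congr rfl
    intro k _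
    simp [hN]
  have hsumNB : ∑ k ∈ K, (NB k : ℝ) = ∑ i ∈ B, (m i : ℝ) := by
    rw [← Finset.sum_fiberwise_of_maps_to (g := β) (t := K) (s := B)
      (fun i hi => Finset.mem_image_of_mem β (hBF hi))]
    apply Finset.sum_congr rfl
    intro k _
    simp [hNB]
  -- squares
  have hsq : ∑ k ∈ K, (N k : ℝ) ^ 2 ≤ ∑ i ∈ F, ∑ j ∈ F, (if |x i - x j| ≤ b then (m i : ℝ) * m j else 0) := by
    have e : ∑ k ∈ K, (N k : ℝ) ^ 2 = ∑ i ∈ F, ∑ j ∈ F, (if β j = β i then (m i : ℝ) * m j else 0) := by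
      rw [← Finset.sum_fiberwise_of_maps_to (g := β) (t := K) (s := F) (fun i hi => Finset.mem_image_of_mem β hi)]
      apply Finset.sum_congr rfl
      intro k _
      rw [sq]
      have e1 : (N k : ℝ) = ∑ i ∈ F with β i = k, (m i : ℝ) := by simp [hN]
      nth_rewrite 1 [e1]
      rw [Finset.sum_mul]
      apply Finset.sum_congr rfl
      intro i hi
      have hik : β i = k := (Finset.mem_filter.mp hi).2
      rw [e1, hik, ← Finset.sum_filter, Finset.mul_sum]
    rw [e]
    apply Finset.sum_le_sum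
    intro i _
    apply Finset.sum_le_sum
    intro j _
    by_cases h : β j = β i
    · have h1 : |x i - x j| ≤ b := by
        have a1 := Int.floor_le (x i / b)
        have a2 := Int.lt_floor_add_one (x i / b)
        have a3 := Int.floor_le (x j / b)
        have a4 := Int.lt_floor_add_one (x j / b)
        simp only [hβ] at h
        rw [h] at a3 a4
        have b1 : x i / b - x j / b < 1 := by linarith
        have b2 : x j / b - x i / b < 1 := by linarith
        rw [← sub_div, div_lt_one hb] at b1 b2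
        rw [abs_le]; constructor <;> linarith
      rw [if_pos h, if_pos h1]
    · rw [if_neg h]
      split_ifs <;> positivity
  -- one shift
  have hshift : ∀ d : ℤ, ∑ i ∈ B, ∑ j ∈ F, (if β j = β i + d then (m i : ℝ) * m j else 0) ≤
      ∑ i ∈ B, (m i : ℝ) + 2 * (∑ k ∈ K, ((N k : ℝ) ^ 2 - N k)) := by
    intro d
    have e : ∑ i ∈ B, ∑ j ∈ F, (if β j = β i + d then (m i : ℝ) * m j else 0) = ∑ k ∈ K, (NB k : ℝ) * N (k + d) := by
      rw [← Finset.sum_fiberwise_of_maps_to (g := β) (t := K) (s := B) (fun i hi => Finset.mem_image_of_mem β (hBF hi))]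
      apply Finset.sum_congr rfl
      intro k _
      have e1 : (NB k : ℝ) = ∑ i ∈ B with β i = k, (m i : ℝ) := by simp [hNB]
      have e2 : (N (k + d) : ℝ) = ∑ i ∈ F with β i = k + d, (m i : ℝ) := by simp [hN]
      rw [e1, Finset.sum_mul]
      apply Finset.sum_congr rfl
      intro i hi
      have hik : β i = k := (Finset.mem_filter.mp hi).2
      rw [e2, hik, ← Finset.sum_filter, Finset.mul_sum]
    rw [e]
    have h1 : ∑ k ∈ K, (NB k : ℝ) * N (k + d) ≤
        ∑ k ∈ K, ((NB k : ℝ) + ((N k : ℝ) ^ 2 - N k) + ((N (k + d) : ℝ) ^ 2 - N (k + d))) :=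
      Finset.sum_le_sum fun k _ => nat_ineq (hNBN k)
    have h2 : ∑ k ∈ K, ((N (k + d) : ℝ) ^ 2 - N (k + d)) ≤ ∑ k ∈ K, ((N k : ℝ) ^ 2 - N k) := by
      have e3 : ∑ k ∈ K, ((N (k + d) : ℝ) ^ 2 - N (k + d)) = ∑ k ∈ K.image (fun k => k + d), ((N k : ℝ) ^ 2 - N k) :=
        (Finset.sum_image (f := fun k => ((N k : ℝ) ^ 2 - N k)) (s := K) (g := fun k => k + d)
          (fun a _ c _ h => add_right_cancel h)).symm
      rw [e3]
      calc ∑ k ∈ K.image (fun k => k + d), ((N k : ℝ) ^ 2 - N k) ≤ ∑ k ∈ K.image (fun k => k + d) ∪ K, ((N k : ℝ) ^ 2 - N k) :=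
            Finset.sum_le_sum_of_subset_of_nonneg Finset.subset_union_left fun k _ _ => sq_sub_nonneg _
        _ = ∑ k ∈ K, ((N k : ℝ) ^ 2 - N k) := by
            symm
            apply Finset.sum_subset Finset.subset_union_right
            intro k _ hk
            rw [hN0 k hk]; simp
    rw [Finset.sum_add_distrib, Finset.sum_add_distrib, hsumNB] at h1
    linarith
  -- all shifts
  have hall : ∑ i ∈ B, ∑ j ∈ F, (if |x i - x j| ≤ r then (m i : ℝ) * m j else 0) ≤
      ∑ d ∈ Finset.Icc (-(M : ℤ)) M, ∑ i ∈ B, ∑ j ∈ F, (if β j = β i + d then (m i : ℝ) * m j else 0) := by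
    have ec : ∑ d ∈ Finset.Icc (-(M : ℤ)) M, ∑ i ∈ B, ∑ j ∈ F, (if β j = β i + d then (m i : ℝ) * m j else 0) =
        ∑ i ∈ B, ∑ j ∈ F, ∑ d ∈ Finset.Icc (-(M : ℤ)) M, (if β j = β i + d then (m i : ℝ) * m j else 0) := by
      rw [Finset.sum_comm]
      apply Finset.sum_congr rfl
      intro i _
      rw [Finset.sum_comm]
    rw [ec]
    apply Finset.sum_le_sum
    intro i _
    apply Finset.sum_le_sum
    intro j _
    have hnn : ∀ d : ℤ, (0:ℝ) ≤ (if β j = β i + d then (m i : ℝ) * m j else 0) := by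
      intro d; split_ifs <;> positivity
    by_cases h : |x i - x j| ≤ r
    · rw [if_pos h]
      have hmem : β j - β i ∈ Finset.Icc (-(M : ℤ)) M := by
        have a1 := Int.floor_le (x i / b)
        have a2 := Int.lt_floor_add_one (x i / b)
        have a3 := Int.floor_le (x j / b)
        have a4 := Int.lt_floor_add_one (x j / b)
        obtain ⟨h1, h2⟩ := abs_le.mp h
        have b1 : x i / b - x j / b ≤ M - 1 := by
          rw [← sub_div, div_le_iff₀ hb]; linarith
        have b2 : x j / b - x i / b ≤ M - 1 := by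
          rw [← sub_div, div_le_iff₀ hb]; linarith
        rw [Finset.mem_Icc]
        constructor
        · have : (-(M : ℝ)) < ((β j - β i : ℤ) : ℝ) + 1 := by push_cast; simp only [hβ]; linarith
          have : (-(M : ℤ)) < (β j - β i) + 1 := by exact_mod_cast this
          omega
        · have : ((β j - β i : ℤ) : ℝ) < M + 1 := by push_cast; simp only [hβ]; linarith
          have : (β j - β i) < (M : ℤ) + 1 := by exact_mod_cast this
          omega
      calc (m i : ℝ) * m j = (if β j = β i + (β j - β i) then (m i : ℝ) * m j else 0) := by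
            rw [if_pos (by ring)]
        _ ≤ ∑ d ∈ Finset.Icc (-(M : ℤ)) M, (if β j = β i + d then (m i : ℝ) * m j else 0) :=
            Finset.single_le_sum (f := fun d : ℤ => (if β j = β i + d then (m i : ℝ) * m j else 0)) (fun d _ => hnn d) hmem
    · rw [if_neg h]
      exact Finset.sum_nonneg fun d _ => hnn d
  calc ∑ i ∈ B, ∑ j ∈ F, (if |x i - x j| ≤ r then (m i : ℝ) * m j else 0) ≤ _ := hall
    _ ≤ ∑ d ∈ Finset.Icc (-(M : ℤ)) M, (∑ i ∈ B, (m i : ℝ) + 2 * (∑ k ∈ K, ((N k : ℝ) ^ 2 - N k))) :=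
        Finset.sum_le_sum fun d _ => hshift d
    _ = (2 * M + 1) * (∑ i ∈ B, (m i : ℝ) + 2 * (∑ k ∈ K, ((N k : ℝ) ^ 2 - N k))) := by
        rw [Finset.sum_const, nsmul_eq_mul]
        congr 1
        simp only [Int.card_Icc]
        have : ((M : ℤ) + 1 - (-(M : ℤ))).toNat = 2 * M + 1 := by omega
        rw [this]; push_cast; ring
    _ ≤ _ := by
        apply mul_le_mul_of_nonneg_left _ (by positivity)
        rw [Finset.sum_sub_distrib, hsumN]
        linarith

end Pool.Agent.H87.AH
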