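import Mathlib

/-!
# MP_103a5c_AH, block L: from windows to the lattice (deterministic)
-/

open MeasureTheory Set Filter Topology
open scoped Real ENNReal

namespace Pool.Agent.H87.AH

/-- number of points of `P` in the open window `(t - h, t + h)` -/
noncomputable def FW (P : Finset ℝ) (h t : ℝ) : ℕ := (P.filter fun x => |x - t| < h).card

lemma FW_eq_sum (P : Finset ℝ) (h t : ℝ) :
    (FW P h t : ℝ) = ∑ x ∈ P, (Ioo (x - h) (x + h)).indicator (fun _ => (1:ℝ)) t := by
  unfold FW
  rw [Finset.card_filter]
  push_cast
  apply Finset.sum_congr rfl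
  intro x _
  have : |x - t| < h ↔ t ∈ Ioo (x - h) (x + h) := by
    rw [abs_lt, mem_Ioo]; constructor <;> rintro ⟨a, b⟩ <;> constructor <;> linarith
  simp only [this, indicator]

lemma measurable_FW (P : Finset ℝ) (h : ℝ) : Measurable (fun t => (FW P h t : ℝ)) := by
  simp only [FW_eq_sum]
  apply Finset.measurable_sum
  intro x _
  exact measurable_const.indicator measurableSet_Ioo

/-- the set of `t ∈ [U, U+H]` whose window does not contain exactly one point -/
def badF (P : Finset ℝ) (h U H : ℝ) : Set ℝ := {t | t ∈ Icc U (U + H) ∧ FW P h t ≠ 1}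

lemma measurableSet_badF (P : Finset ℝ) (h U H : ℝ) : MeasurableSet (badF P h U H) := by
  have h1 : MeasurableSet {t : ℝ | (FW P h t : ℝ) ≠ 1} :=
    (measurable_FW P h) (measurableSet_singleton (1:ℝ)).compl
  have : badF P h U H = Icc U (U + H) ∩ {t : ℝ | (FW P h t : ℝ) ≠ 1} := by
    ext t
    unfold badF
    simp only [mem_ofPred_eq, mem_inter_iff, ne_eq, Nat.cast_eq_one]
  rw [this]
  exact measurableSet_Icc.inter h1

lemma integral_FW_le (P : Finset ℝ) (h U H : ℝ) (hh : 0 ≤ h) :
    ∫ t in Icc U (U + H), (FW P h t : ℝ) ≤ 2 * h * P.card := by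
  have hi : ∀ x ∈ P, IntegrableOn ((Ioo (x - h) (x + h)).indicator (fun _ => (1:ℝ))) (Icc U (U + H)) := by
    intro x _
    apply Integrable.integrableOn
    rw [integrable_indicator_iff measurableSet_Ioo]
    exact integrableOn_const (by simp)
  simp only [FW_eq_sum]
  rw [integral_finsetSum _ hi]
  calc ∑ x ∈ P, ∫ t in Icc U (U + H), (Ioo (x - h) (x + h)).indicator (fun _ => (1:ℝ)) t
      ≤ ∑ x ∈ P, 2 * h := by
        apply Finset.sum_le_sum
        intro x _
        calc ∫ t in Icc U (U + H), (Ioo (x - h) (x + h)).indicator (fun _ => (1:ℝ)) t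
            ≤ ∫ t, (Ioo (x - h) (x + h)).indicator (fun _ => (1:ℝ)) t := by
              apply setIntegral_le_integral
              · rw [integrable_indicator_iff measurableSet_Ioo]
                exact integrableOn_const (by simp)
              · exact Eventually.of_forall fun t => indicator_nonneg (fun _ _ => zero_le_one) t
          _ = 2 * h := by
              rw [integral_indicator measurableSet_Ioo, setIntegral_const]
              simp only [measureReal_def, Real.volume_Ioo, smul_eq_mul, mul_one]
              rw [ENNReal.toReal_ofReal (by linarith)]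
              ring
    _ = 2 * h * P.card := by rw [Finset.sum_const, nsmul_eq_mul]; ring

/-- If every window outside `Bad` contains a point and the number of points is at most `H / 2h + small`, then most
windows contain exactly one point. -/
theorem vol_badF_le (P : Finset ℝ) (h U H : ℝ) (hh : 0 ≤ h) (hH : 0 ≤ H) (Bad : Set ℝ) (hBm : MeasurableSet Bad)
    (hB : Bad ⊆ Icc U (U + H))
    (h1 : ∀ t ∈ Icc U (U + H), t ∉ Bad → 1 ≤ FW P h t) :
    volume.real (badF P h U H) ≤ 2 * h * P.card - H + 2 * volume.real Bad := by
  have hbm := measurableSet_badF P h U H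
  have hsub : badF P h U H ⊆ Icc U (U + H) := fun t ht => ht.1
  have hfinI : volume (Icc U (U + H)) ≠ ∞ := by simp
  have hfinB : volume Bad ≠ ∞ := (measure_mono hB).trans_lt (lt_top_iff_ne_top.mpr hfinI) |>.ne
  have hfinb : volume (badF P h U H) ≠ ∞ := (measure_mono hsub).trans_lt (lt_top_iff_ne_top.mpr hfinI) |>.ne
  have ib : IntegrableOn ((badF P h U H).indicator (fun _ => (1:ℝ))) (Icc U (U + H)) := by
    apply Integrable.integrableOn
    rw [integrable_indicator_iff hbm]
    exact integrableOn_const hfinb
  have iB : IntegrableOn (Bad.indicator (fun _ => (1:ℝ))) (Icc U (U + H)) := by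
    apply Integrable.integrableOn
    rw [integrable_indicator_iff hBm]
    exact integrableOn_const hfinB
  have iF : IntegrableOn (fun t => (FW P h t : ℝ)) (Icc U (U + H)) := by
    simp only [FW_eq_sum]
    apply integrable_finsetSum
    intro x _
    apply Integrable.integrableOn
    rw [integrable_indicator_iff measurableSet_Ioo]
    exact integrableOn_const (by simp)
  have key : ∫ t in Icc U (U + H), ((badF P h U H).indicator (fun _ => (1:ℝ)) t - 2 * Bad.indicator (fun _ => (1:ℝ)) t + 1) ≤
      ∫ t in Icc U (U + H), (FW P h t : ℝ) := by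
    apply setIntegral_mono_on
    · exact (ib.sub (iB.const_mul 2)).add (integrableOn_const hfinI)
    · exact iF
    · exact measurableSet_Icc
    · intro t ht
      by_cases hb : t ∈ badF P h U H
      · by_cases hB' : t ∈ Bad
        · simp only [indicator_of_mem hb, indicator_of_mem hB']
          have : (0:ℝ) ≤ FW P h t := Nat.cast_nonneg _
          linarith
        · simp only [indicator_of_mem hb, indicator_of_notMem hB']
          have h2 := h1 t ht hB'
          have h3 : FW P h t ≠ 1 := hb.2
          have h4 : 2 ≤ FW P h t := by omega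
          have : (2:ℝ) ≤ FW P h t := by exact_mod_cast h4
          linarith
      · have h3 : FW P h t = 1 := by
          by_contra hne
          exact hb ⟨ht, hne⟩
        rw [indicator_of_notMem hb, h3]
        by_cases hB' : t ∈ Bad
        · simp [indicator_of_mem hB']
        · simp [indicator_of_notMem hB']
  have e1 : ∫ t in Icc U (U + H), (badF P h U H).indicator (fun _ => (1:ℝ)) t = volume.real (badF P h U H) := by
    rw [setIntegral_indicator hbm, inter_eq_self_of_subset_right hsub, setIntegral_const]
    simp
  have e2 : ∫ t in Icc U (U + H), Bad.indicator (fun _ => (1:ℝ)) t = volume.real Bad := by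
    rw [setIntegral_indicator hBm, inter_eq_self_of_subset_right hB, setIntegral_const]
    simp
  have e3 : ∫ t in Icc U (U + H), (1:ℝ) = H := by
    rw [setIntegral_const]
    simp [measureReal_def, ENNReal.toReal_ofReal hH]
  have i2 : IntegrableOn (fun t => 2 * Bad.indicator (fun _ => (1:ℝ)) t) (Icc U (U + H)) := iB.const_mul 2
  have i1 : IntegrableOn (fun t => (badF P h U H).indicator (fun _ => (1:ℝ)) t - 2 * Bad.indicator (fun _ => (1:ℝ)) t)
      (Icc U (U + H)) := ib.sub i2
  have i3 : IntegrableOn (fun _ : ℝ => (1:ℝ)) (Icc U (U + H)) := integrableOn_const hfinI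
  rw [integral_add i1 i3, integral_sub ib i2, integral_const_mul, e1, e2, e3] at key
  have := integral_FW_le P h U H hh
  linarith

end Pool.Agent.H87.AH
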