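import Mathlib
import Pool.Agent.H87.AH.L1

/-!
# MP_103a5c_AH, block L2: a pair of points off the lattice makes many windows bad (deterministic)
-/

open MeasureTheory Set Filter Topology
open scoped Real ENNReal

namespace Pool.Agent.H87.AH

lemma two_le_FW {P : Finset ℝ} {h t p q : ℝ} (hp : p ∈ P) (hq : q ∈ P) (hpq : p ≠ q) (h1 : |p - t| < h)
    (h2 : |q - t| < h) : 2 ≤ FW P h t := by
  unfold FW
  have : ({p, q} : Finset ℝ) ⊆ P.filter fun x => |x - t| < h := by
    intro x hx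
    simp only [Finset.mem_insert, Finset.mem_singleton] at hx
    rcases hx with rfl | rfl
    · exact Finset.mem_filter.mpr ⟨hp, h1⟩
    · exact Finset.mem_filter.mpr ⟨hq, h2⟩
  calc 2 = ({p, q} : Finset ℝ).card := (Finset.card_pair hpq).symm
    _ ≤ _ := Finset.card_le_card this

lemma exists_of_FW {P : Finset ℝ} {h t : ℝ} (h1 : FW P h t = 1) : ∃ p ∈ P, |p - t| < h := by
  unfold FW at h1
  have : (P.filter fun x => |x - t| < h).Nonempty := by
    rw [← Finset.card_pos]; omega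
  obtain ⟨p, hp⟩ := this
  exact ⟨p, (Finset.mem_filter.mp hp).1, (Finset.mem_filter.mp hp).2⟩

/-- one value of the shift -/
lemma shift_bad {P : Finset ℝ} {h γ γ' ρ η σ : ℝ} {k : ℕ} (hγ : γ ∈ P) (hγ' : γ' ∈ P)
    (he : γ' = γ + 2 * h * k + ρ) (h1 : η ≤ ρ) (h2 : ρ ≤ 2 * h - η) (hσ : 0 < σ) (hση : σ < η)
    (hne : ∀ p ∈ P, ∀ j ≤ k, σ ≠ γ + 2 * h * (j : ℕ) - p) :
    (∃ j ≤ k, FW P h (γ - σ + h + 2 * h * (j : ℕ)) ≠ 1) ∨ (∃ j < k, FW P h (γ + σ + h + 2 * h * (j : ℕ)) ≠ 1) := by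
  by_contra hcon
  push Not at hcon
  obtain ⟨c1, c2⟩ := hcon
  have hind : ∀ j : ℕ, j ≤ k → ∃ q ∈ P, γ - σ + 2 * h * j < q ∧ q < γ + σ + 2 * h * j := by
    intro j
    induction j with
    | zero =>
      intro _
      exact ⟨γ, hγ, by simp; linarith, by simp; linarith⟩
    | succ j ih =>
      intro hj
      obtain ⟨q, hq, hq1, hq2⟩ := ih (by omega)
      obtain ⟨q', hq', hq'1⟩ := exists_of_FW (c2 j (by omega))
      rw [abs_lt] at hq'1
      have e : γ - σ + 2 * h * ((j + 1 : ℕ) : ℝ) = γ - σ + h + 2 * h * j + h := by push_cast; ring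
      have e' : γ + σ + 2 * h * ((j + 1 : ℕ) : ℝ) = γ + σ + h + 2 * h * j + h := by push_cast; ring
      refine ⟨q', hq', ?_, by rw [e']; linarith⟩
      by_contra hle
      push Not at hle
      rcases hle.lt_or_eq with hlt | heq
      · have := two_le_FW (h := h) (t := γ - σ + h + 2 * h * (j : ℕ)) hq hq' (by linarith)
          (by rw [abs_lt]; constructor <;> linarith) (by rw [abs_lt]; constructor <;> linarith)
        rw [c1 j (by omega)] at this
        omega
      · exact hne q' hq' (j + 1) hj (by linarith)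
  obtain ⟨q, hq, hq1, hq2⟩ := hind k le_rfl
  have := two_le_FW (h := h) (t := γ - σ + h + 2 * h * (k : ℕ)) hq hγ' (by linarith)
    (by rw [abs_lt]; constructor <;> linarith) (by rw [abs_lt]; constructor <;> linarith)
  rw [c1 k le_rfl] at this
  omega

/-- A pair of points of `P` whose distance is at least `η` away from `2 h ℤ` forces a positive measure of bad windows
nearby. -/
theorem pair_bad {P : Finset ℝ} {h γ γ' ρ η U H : ℝ} {k : ℕ} (hγ : γ ∈ P) (hγ' : γ' ∈ P)
    (he : γ' = γ + 2 * h * k + ρ) (h1 : η ≤ ρ) (h2 : ρ ≤ 2 * h - η) (hη : 0 < η) (hηh : η ≤ h)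
    (hU : U ≤ γ - 2 * h) (hH : γ' + 2 * h ≤ U + H) :
    η ≤ (2 * k + 1) * volume.real (badF P h U H ∩ Icc (γ - 2 * h) (γ' + 2 * h)) := by
  set B := badF P h U H ∩ Icc (γ - 2 * h) (γ' + 2 * h) with hB
  have hBm : MeasurableSet B := (measurableSet_badF P h U H).inter measurableSet_Icc
  have hhpos : 0 < h := by linarith
  set E₁ : Finset ℝ := (P ×ˢ Finset.range (k + 1)).image (fun x : ℝ × ℕ => γ + 2 * h * (x.2 : ℝ) - x.1) with hE₁
  set E₀ : Set ℝ := (E₁ : Set ℝ) with hE₀
  have hcover : Ioo 0 η ⊆ E₀ ∪ ((⋃ j ∈ Finset.range (k + 1), (fun σ => (γ + h + 2 * h * (j : ℝ)) - σ) ⁻¹' B) ∪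
      (⋃ j ∈ Finset.range k, (fun σ => (γ + h + 2 * h * (j : ℝ)) + σ) ⁻¹' B)) := by
    intro σ hσ
    by_cases hE : σ ∈ E₀
    · exact Or.inl hE
    right
    have hne : ∀ p ∈ P, ∀ j ≤ k, σ ≠ γ + 2 * h * (j : ℕ) - p := by
      intro p hp j hj heq
      apply hE
      rw [hE₀, Finset.mem_coe, hE₁, Finset.mem_image]
      exact ⟨(p, j), Finset.mem_product.mpr ⟨hp, Finset.mem_range.mpr (by omega)⟩, heq.symm⟩
    rcases shift_bad hγ hγ' he h1 h2 hσ.1 hσ.2 hne with ⟨j, hj, hF⟩ | ⟨j, hj, hF⟩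
    · left
      simp only [mem_iUnion, Finset.mem_range, mem_preimage, exists_prop]
      have hjk : (j : ℝ) ≤ k := by exact_mod_cast hj
      have hjk2 : 2 * h * (j:ℝ) ≤ 2 * h * k := mul_le_mul_of_nonneg_left hjk (by positivity)
      have hj0 : 0 ≤ 2 * h * (j : ℝ) := by positivity
      have e : γ + h + 2 * h * (j : ℝ) - σ = γ - σ + h + 2 * h * (j : ℕ) := by ring
      refine ⟨j, by omega, ?_⟩
      rw [e]
      refine ⟨⟨⟨?_, ?_⟩, hF⟩, ?_, ?_⟩
      all_goals linarith [hσ.1, hσ.2]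
    · right
      simp only [mem_iUnion, Finset.mem_range, mem_preimage, exists_prop]
      have hjk : (j : ℝ) + 1 ≤ k := by exact_mod_cast hj
      have hjk2 : 2 * h * ((j:ℝ) + 1) ≤ 2 * h * k := mul_le_mul_of_nonneg_left hjk (by positivity)
      have hj0 : 0 ≤ 2 * h * (j : ℝ) := by positivity
      have e : γ + h + 2 * h * (j : ℝ) + σ = γ + σ + h + 2 * h * (j : ℕ) := by ring
      refine ⟨j, hj, ?_⟩
      rw [e]
      refine ⟨⟨⟨?_, ?_⟩, hF⟩, ?_, ?_⟩
      all_goals linarith [hσ.1, hσ.2]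
  have hvolE : volume E₀ = 0 := by
    rw [hE₀]; exact (Finset.finite_toSet _).measure_zero volume
  have hm1 : ∀ c : ℝ, volume ((fun σ => c - σ) ⁻¹' B) = volume B := fun c =>
    (Measure.measurePreserving_sub_left volume c).measure_preimage hBm.nullMeasurableSet
  have hm2 : ∀ c : ℝ, volume ((fun σ => c + σ) ⁻¹' B) = volume B := fun c =>
    (measurePreserving_add_left volume c).measure_preimage hBm.nullMeasurableSet
  have hle : volume (Ioo 0 η) ≤ (2 * k + 1) * volume B := by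
    calc volume (Ioo 0 η) ≤ volume (E₀ ∪ ((⋃ j ∈ Finset.range (k + 1), (fun σ => (γ + h + 2 * h * (j : ℝ)) - σ) ⁻¹' B) ∪
          (⋃ j ∈ Finset.range k, (fun σ => (γ + h + 2 * h * (j : ℝ)) + σ) ⁻¹' B))) := measure_mono hcover
      _ ≤ volume E₀ + (volume (⋃ j ∈ Finset.range (k + 1), (fun σ => (γ + h + 2 * h * (j : ℝ)) - σ) ⁻¹' B) +
          volume (⋃ j ∈ Finset.range k, (fun σ => (γ + h + 2 * h * (j : ℝ)) + σ) ⁻¹' B)) :=
          (measure_union_le _ _).trans (add_le_add le_rfl (measure_union_le _ _))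
      _ ≤ 0 + (∑ j ∈ Finset.range (k + 1), volume B + ∑ j ∈ Finset.range k, volume B) := by
          rw [hvolE]
          refine add_le_add le_rfl (add_le_add ?_ ?_)
          · refine (measure_biUnion_finset_le _ _).trans (Finset.sum_le_sum fun j _ => ?_)
            rw [hm1]
          · refine (measure_biUnion_finset_le _ _).trans (Finset.sum_le_sum fun j _ => ?_)
            rw [hm2]
      _ = (2 * k + 1) * volume B := by
          simp only [Finset.sum_const, Finset.card_range, nsmul_eq_mul, zero_add]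
          push_cast
          ring
  have hfin : volume B ≠ ∞ := by
    refine ((measure_mono inter_subset_right).trans_lt ?_).ne
    rw [Real.volume_Icc]
    exact ENNReal.ofReal_lt_top
  have h3 := ENNReal.toReal_mono (by
    refine ENNReal.mul_ne_top ?_ hfin
    exact ENNReal.add_ne_top.mpr ⟨ENNReal.mul_ne_top (by simp) (by simp), by simp⟩) hle
  rw [Real.volume_Ioo, ENNReal.toReal_ofReal (by linarith), ENNReal.toReal_mul,
    ENNReal.toReal_add (ENNReal.mul_ne_top (by simp) (by simp)) (by simp), ENNReal.toReal_mul] at h3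
  simpa [measureReal_def] using h3

end Pool.Agent.H87.AH
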