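import Mathlib
import Pool.Agent.H87.AH.L2
import Pool.Agent.H87.AH.E1

/-!
# MP_103a5c_AH, block E2: pairs off the lattice (deterministic)
-/

open MeasureTheory Set Filter Topology
open scoped Real ENNReal

namespace Pool.Agent.H87.AH

variable {ι : Type*}

lemma card_sep (S : Finset ι) (x : ι → ℝ) (b u ℓ : ℝ) (hb : 0 < b) (hℓ : 0 ≤ ℓ)
    (hsep : ∀ i ∈ S, ∀ j ∈ S, i ≠ j → b < |x i - x j|) (hI : ∀ i ∈ S, u ≤ x i ∧ x i ≤ u + ℓ) :
    (S.card : ℝ) ≤ ℓ / b + 1 := by
  classical
  have hmap : ∀ i ∈ S, ⌊(x i - u) / b⌋₊ ∈ Finset.range (⌊ℓ / b⌋₊ + 1) := by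
    intro i hi
    rw [Finset.mem_range, Nat.lt_succ_iff]
    apply Nat.floor_le_floor
    apply div_le_div_of_nonneg_right _ hb.le
    linarith [(hI i hi).2]
  have hinj : Set.InjOn (fun i => ⌊(x i - u) / b⌋₊) (S : Set ι) := by
    intro i hi j hj h
    by_contra hne
    have h1 := hsep i hi j hj hne
    simp only at h
    have i0 : 0 ≤ (x i - u) / b := div_nonneg (by linarith [(hI i hi).1]) hb.le
    have j0 : 0 ≤ (x j - u) / b := div_nonneg (by linarith [(hI j hj).1]) hb.le
    have a1 := Nat.floor_le i0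
    have a2 := Nat.lt_floor_add_one ((x i - u) / b)
    have a3 := Nat.floor_le j0
    have a4 := Nat.lt_floor_add_one ((x j - u) / b)
    rw [h] at a1 a2
    have b1 : (x i - u) / b - (x j - u) / b < 1 := by linarith
    have b2 : (x j - u) / b - (x i - u) / b < 1 := by linarith
    rw [← sub_div, div_lt_one hb] at b1 b2
    have : |x i - x j| < b := by rw [abs_lt]; constructor <;> linarith
    linarith
  have hc := Finset.card_le_card_of_injOn _ hmap hinj
  rw [Finset.card_range] at hc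
  have hf : (⌊ℓ / b⌋₊ : ℝ) ≤ ℓ / b := Nat.floor_le (div_nonneg hℓ hb.le)
  have : (S.card : ℝ) ≤ (⌊ℓ / b⌋₊ + 1 : ℕ) := by exact_mod_cast hc
  push_cast at this
  linarith

lemma sum_vol (S : Finset ι) (x : ι → ℝ) (b p q : ℝ) (hb : 0 < b) (hpq : 0 ≤ p + q)
    (hsep : ∀ i ∈ S, ∀ j ∈ S, i ≠ j → b < |x i - x j|) (Bd : Set ℝ) (hBm : MeasurableSet Bd)
    (hfin : volume Bd ≠ ∞) :
    ∑ i ∈ S, volume.real (Bd ∩ Icc (x i - p) (x i + q)) ≤ ((p + q) / b + 1) * volume.real Bd := by
  classical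
  have hi : ∀ i ∈ S, IntegrableOn ((Icc (x i - p) (x i + q)).indicator (fun _ => (1:ℝ))) Bd := by
    intro i _
    apply Integrable.integrableOn
    rw [integrable_indicator_iff measurableSet_Icc]
    exact integrableOn_const (by simp)
  have e : ∑ i ∈ S, volume.real (Bd ∩ Icc (x i - p) (x i + q)) =
      ∫ t in Bd, ∑ i ∈ S, (Icc (x i - p) (x i + q)).indicator (fun _ => (1:ℝ)) t := by
    rw [integral_finsetSum _ hi]
    apply Finset.sum_congr rfl
    intro i _
    rw [setIntegral_indicator measurableSet_Icc, setIntegral_const]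
    simp
  rw [e]
  calc ∫ t in Bd, ∑ i ∈ S, (Icc (x i - p) (x i + q)).indicator (fun _ => (1:ℝ)) t
      ≤ ∫ t in Bd, ((p + q) / b + 1) := by
        apply setIntegral_mono_on
        · exact integrable_finsetSum _ hi
        · exact integrableOn_const hfin
        · exact hBm
        · intro t _
          have h1 : ∑ i ∈ S, (Icc (x i - p) (x i + q)).indicator (fun _ => (1:ℝ)) t =
              ((S.filter fun i => t ∈ Icc (x i - p) (x i + q)).card : ℝ) := by
            rw [Finset.card_filter]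
            push_cast
            apply Finset.sum_congr rfl
            intro i _
            simp only [indicator]
          rw [h1]
          apply card_sep (S.filter fun i => t ∈ Icc (x i - p) (x i + q)) x b (t - q) (p + q) hb hpq
          · intro i hi j hj hne
            exact hsep i (Finset.mem_filter.mp hi).1 j (Finset.mem_filter.mp hj).1 hne
          · intro i hi
            have := (Finset.mem_filter.mp hi).2
            rw [mem_Icc] at this
            constructor <;> linarith [this.1, this.2]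
    _ = ((p + q) / b + 1) * volume.real Bd := by
        rw [setIntegral_const, smul_eq_mul, mul_comm]

open Classical in
/-- weight of the zeros which are multiple or have another zero within distance `b` -/
lemma weight_nonisolated (F : Finset ι) (x : ι → ℝ) (m : ι → ℕ) (b : ℝ) (hm : ∀ i ∈ F, 1 ≤ m i) (hb : 0 ≤ b) :
    ∑ i ∈ F.filter (fun i => ¬ (m i = 1 ∧ ∀ j ∈ F, j ≠ i → b < |x i - x j|)), (m i : ℝ) ≤
      ∑ i ∈ F, ∑ j ∈ F, (if |x i - x j| ≤ b then (m i : ℝ) * m j else 0) - ∑ i ∈ F, (m i : ℝ) := by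
  rw [Finset.sum_filter, ← Finset.sum_sub_distrib]
  apply Finset.sum_le_sum
  intro i hi
  have hmi : (1:ℝ) ≤ m i := by exact_mod_cast hm i hi
  have hnn : ∀ j ∈ F, (0:ℝ) ≤ (if |x i - x j| ≤ b then (m i : ℝ) * m j else 0) := by
    intro j _; split_ifs <;> positivity
  have hself : (m i : ℝ) * m i ≤ ∑ j ∈ F, (if |x i - x j| ≤ b then (m i : ℝ) * m j else 0) := by
    have := Finset.single_le_sum hnn hi
    simpa [hb] using this
  by_cases h : (m i = 1 ∧ ∀ j ∈ F, j ≠ i → b < |x i - x j|)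
  swap
  · rw [if_pos h]
    by_cases h1 : m i = 1
    · have h2 : ∃ j ∈ F, j ≠ i ∧ |x i - x j| ≤ b := by
        by_contra hcon
        push Not at hcon
        exact h ⟨h1, hcon⟩
      obtain ⟨j, hj, hji, hle⟩ := h2
      have hmj : (1:ℝ) ≤ m j := by exact_mod_cast hm j hj
      have h3 : ∑ k ∈ ({i, j} : Finset ι), (if |x i - x k| ≤ b then (m i : ℝ) * m k else 0) ≤
          ∑ j ∈ F, (if |x i - x j| ≤ b then (m i : ℝ) * m j else 0) := by
        apply Finset.sum_le_sum_of_subset_of_nonneg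
        · intro k hk
          simp only [Finset.mem_insert, Finset.mem_singleton] at hk
          rcases hk with rfl | rfl
          · exact hi
          · exact hj
        · intro k hk _
          exact hnn k hk
      rw [Finset.sum_pair hji.symm, sub_self, abs_zero, if_pos hb, if_pos hle] at h3
      nlinarith
    · have h2 : 2 ≤ m i := by have := hm i hi; omega
      have h2' : (2:ℝ) ≤ m i := by exact_mod_cast h2
      nlinarith
  · rw [if_neg (not_not.mpr h)]
    nlinarith

open Classical in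
/-- **Pairs off the lattice.** -/
theorem off_pairs (F : Finset ι) (x : ι → ℝ) (m : ι → ℕ)
    (hm : ∀ i ∈ F, 1 ≤ m i) (P : Finset ℝ) (h U H r η b : ℝ) (M k₀ : ℕ) (hη : 0 < η) (hηh : η ≤ h) (hb : 0 < b)
    (hr : 0 ≤ r) (hM : r + b ≤ M * b) (hk₀ : r ≤ 2 * h * k₀)
    (hP : ∀ i ∈ F, U ≤ x i → x i ≤ U + H → x i ∈ P) :
    ∑ i ∈ F, ∑ j ∈ F, (if |x i - x j| ≤ r ∧ ∀ k : ℤ, η ≤ |x i - x j - 2 * h * k| then (m i : ℝ) * m j else 0) ≤
      2 * (2 * M + 1) * (∑ i ∈ F.filter (fun i => x i < U + 2 * h ∨ U + H - r - 2 * h < x i), (m i : ℝ) +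
        (2 * k₀ + 1) * ((r + 4 * h) / b + 1) / η * volume.real (badF P h U H) +
        3 * (∑ i ∈ F, ∑ j ∈ F, (if |x i - x j| ≤ b then (m i : ℝ) * m j else 0) - ∑ i ∈ F, (m i : ℝ))) := by
  have hh : 0 < h := by linarith
  set Bd := badF P h U H with hBd
  have hBm : MeasurableSet Bd := measurableSet_badF P h U H
  have hfin : volume Bd ≠ ∞ := by
    refine ((measure_mono (show Bd ⊆ Icc U (U + H) from fun t ht => ht.1)).trans_lt ?_).ne
    rw [Real.volume_Icc]; exact ENNReal.ofReal_lt_top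
  set P2 := ∑ i ∈ F, ∑ j ∈ F, (if |x i - x j| ≤ b then (m i : ℝ) * m j else 0) - ∑ i ∈ F, (m i : ℝ) with hP2
  set Bdy := F.filter (fun i => x i < U + 2 * h ∨ U + H - r - 2 * h < x i) with hBdy
  set NI := F.filter (fun i => ¬ (m i = 1 ∧ ∀ j ∈ F, j ≠ i → b < |x i - x j|)) with hNI
  set EG := F.filter (fun i => (m i = 1 ∧ ∀ j ∈ F, j ≠ i → b < |x i - x j|) ∧
    η ≤ (2 * k₀ + 1) * volume.real (Bd ∩ Icc (x i - 2 * h) (x i + (r + 2 * h)))) with hEG
  set B := Bdy ∪ (NI ∪ EG) with hB
  have hBF : B ⊆ F := by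
    intro i hi
    rw [hB, Finset.mem_union, Finset.mem_union] at hi
    rcases hi with hi | hi | hi
    · exact (Finset.mem_filter.mp hi).1
    · exact (Finset.mem_filter.mp hi).1
    · exact (Finset.mem_filter.mp hi).1
  -- the lower point of an off-lattice pair lies in `B`
  have hlow : ∀ i ∈ F, ∀ j ∈ F, x i < x j → x j - x i ≤ r → (∀ k : ℤ, η ≤ |x j - x i - 2 * h * k|) → i ∈ B := by
    intro i hi j hj hlt hle hoff
    by_cases h1 : x i < U + 2 * h ∨ U + H - r - 2 * h < x i
    · exact Finset.mem_union_left _ (Finset.mem_filter.mpr ⟨hi, h1⟩)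
    push Not at h1
    apply Finset.mem_union_right
    by_cases h2 : m i = 1 ∧ ∀ j ∈ F, j ≠ i → b < |x i - x j|
    swap
    · exact Finset.mem_union_left _ (Finset.mem_filter.mpr ⟨hi, h2⟩)
    apply Finset.mem_union_right
    refine Finset.mem_filter.mpr ⟨hi, h2, ?_⟩
    set k := ⌊(x j - x i) / (2 * h)⌋₊ with hk
    have hd0 : 0 ≤ (x j - x i) / (2 * h) := div_nonneg (by linarith) (by linarith)
    have a1 := Nat.floor_le hd0
    have a2 := Nat.lt_floor_add_one ((x j - x i) / (2 * h))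
    rw [← hk] at a1 a2
    rw [le_div_iff₀ (by linarith)] at a1
    rw [div_lt_iff₀ (by linarith)] at a2
    have hk0 : (k : ℝ) ≤ k₀ := by
      have : k ≤ k₀ := by
        rw [hk]
        apply Nat.floor_le_of_le
        rw [div_le_iff₀ (by linarith)]
        linarith
      exact_mod_cast this
    have b1 := hoff k
    have b2 := hoff (k + 1)
    push_cast at b1 b2
    rw [abs_of_nonneg (by linarith)] at b1
    rw [abs_of_nonpos (by linarith)] at b2
    have hpb := pair_bad (P := P) (h := h) (γ := x i) (γ' := x j) (ρ := x j - x i - 2 * h * k) (η := η) (U := U) (H := H)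
      (k := k) (hP i hi (by linarith) (by linarith)) (hP j hj (by linarith) (by linarith)) (by ring) b1 (by linarith) hη hηh
      (by linarith) (by linarith)
    refine hpb.trans ?_
    apply mul_le_mul
    · linarith
    · apply measureReal_mono
      · apply inter_subset_inter_right
        apply Icc_subset_Icc_right
        linarith
      · exact ((measure_mono inter_subset_left).trans_lt (lt_top_iff_ne_top.mpr hfin)).ne
    · exact measureReal_nonneg
    · positivity
  -- split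
  have hsplit : ∑ i ∈ F, ∑ j ∈ F, (if |x i - x j| ≤ r ∧ ∀ k : ℤ, η ≤ |x i - x j - 2 * h * k| then (m i : ℝ) * m j else 0) ≤
      ∑ i ∈ F, ∑ j ∈ F, ((if i ∈ B ∧ |x i - x j| ≤ r then (m i : ℝ) * m j else 0) +
        (if j ∈ B ∧ |x i - x j| ≤ r then (m i : ℝ) * m j else 0)) := by
    apply Finset.sum_le_sum
    intro i hi
    apply Finset.sum_le_sum
    intro j hj
    have n1 : (0:ℝ) ≤ (if i ∈ B ∧ |x i - x j| ≤ r then (m i : ℝ) * m j else 0) := by split_ifs <;> positivity
    have n2 : (0:ℝ) ≤ (if j ∈ B ∧ |x i - x j| ≤ r then (m i : ℝ) * m j else 0) := by split_ifs <;> positivity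
    by_cases hc : |x i - x j| ≤ r ∧ ∀ k : ℤ, η ≤ |x i - x j - 2 * h * k|
    swap
    · rw [if_neg hc]; linarith
    · rw [if_pos hc]
      obtain ⟨hc1, hc2⟩ := hc
      obtain ⟨c1, c2⟩ := abs_le.mp hc1
      have hne : x i ≠ x j := by
        intro he
        have := hc2 0
        rw [he] at this
        simp at this
        linarith
      rcases lt_or_gt_of_ne hne with hlt | hlt
      · have hiB : i ∈ B := by
          apply hlow i hi j hj hlt (by linarith)
          intro k
          have := hc2 (-k)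
          push_cast at this
          rw [← abs_neg] at this
          convert this using 2
          ring
        rw [if_pos (⟨hiB, hc1⟩ : i ∈ B ∧ |x i - x j| ≤ r)]
        linarith
      · have hjB : j ∈ B := by
          apply hlow j hj i hi hlt (by linarith)
          intro k
          exact hc2 k
        rw [if_pos (⟨hjB, hc1⟩ : j ∈ B ∧ |x i - x j| ≤ r)]
        linarith
  have e1 : ∑ i ∈ F, ∑ j ∈ F, (if i ∈ B ∧ |x i - x j| ≤ r then (m i : ℝ) * m j else 0) =
      ∑ i ∈ B, ∑ j ∈ F, (if |x i - x j| ≤ r then (m i : ℝ) * m j else 0) := by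
    rw [← Finset.sum_filter_add_sum_filter_not F (fun i => i ∈ B)]
    have : F.filter (fun i => i ∈ B) = B := by
      ext i; simp only [Finset.mem_filter]; exact ⟨fun h => h.2, fun h => ⟨hBF h, h⟩⟩
    rw [this]
    have z : ∑ i ∈ F.filter (fun i => i ∉ B), ∑ j ∈ F, (if i ∈ B ∧ |x i - x j| ≤ r then (m i : ℝ) * m j else 0) = 0 := by
      apply Finset.sum_eq_zero
      intro i hi
      apply Finset.sum_eq_zero
      intro j _
      rw [if_neg]
      intro hh
      exact (Finset.mem_filter.mp hi).2 hh.1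
    rw [z, add_zero]
    apply Finset.sum_congr rfl
    intro i hi
    apply Finset.sum_congr rfl
    intro j _
    simp only [hi, true_and]
  have e2 : ∑ i ∈ F, ∑ j ∈ F, (if j ∈ B ∧ |x i - x j| ≤ r then (m i : ℝ) * m j else 0) =
      ∑ i ∈ B, ∑ j ∈ F, (if |x i - x j| ≤ r then (m i : ℝ) * m j else 0) := by
    rw [← e1, Finset.sum_comm]
    apply Finset.sum_congr rfl
    intro i _
    apply Finset.sum_congr rfl
    intro j _
    rw [abs_sub_comm (x j) (x i), mul_comm (m j : ℝ) (m i : ℝ)]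
  have hbins := bins F B hBF x m b r M hb hM
  -- the weight of `B`
  have hWB : ∑ i ∈ B, (m i : ℝ) ≤ ∑ i ∈ Bdy, (m i : ℝ) + (∑ i ∈ NI, (m i : ℝ) + ∑ i ∈ EG, (m i : ℝ)) := by
    have u : ∀ X Y : Finset ι, ∑ i ∈ X ∪ Y, (m i : ℝ) ≤ ∑ i ∈ X, (m i : ℝ) + ∑ i ∈ Y, (m i : ℝ) := by
      intro X Y
      have := Finset.sum_union_inter (s₁ := X) (s₂ := Y) (f := fun i => (m i : ℝ))
      have n : (0:ℝ) ≤ ∑ i ∈ X ∩ Y, (m i : ℝ) := Finset.sum_nonneg fun i _ => Nat.cast_nonneg _
      linarith
    have := u Bdy (NI ∪ EG)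
    have := u NI EG
    linarith
  have hNIw : ∑ i ∈ NI, (m i : ℝ) ≤ P2 := weight_nonisolated F x m b hm hb.le
  have hP2n : 0 ≤ P2 := le_trans (Finset.sum_nonneg fun i _ => Nat.cast_nonneg _) hNIw
  have hEGw : ∑ i ∈ EG, (m i : ℝ) ≤ (2 * k₀ + 1) * ((r + 4 * h) / b + 1) / η * volume.real Bd := by
    have hc : ∑ i ∈ EG, (m i : ℝ) = ∑ i ∈ EG, (1:ℝ) := by
      apply Finset.sum_congr rfl
      intro i hi
      rw [(Finset.mem_filter.mp hi).2.1.1]; simp
    have h1 : ∑ i ∈ EG, η ≤ ∑ i ∈ EG, (2 * k₀ + 1) * volume.real (Bd ∩ Icc (x i - 2 * h) (x i + (r + 2 * h))) :=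
      Finset.sum_le_sum fun i hi => (Finset.mem_filter.mp hi).2.2
    have h2 := sum_vol EG x b (2 * h) (r + 2 * h) hb (by linarith) (by
      intro i hi j hj hne
      exact (Finset.mem_filter.mp hi).2.1.2 j (Finset.mem_filter.mp hj).1 hne.symm) Bd hBm hfin
    rw [← Finset.mul_sum] at h1
    have h3 : ∑ i ∈ EG, η = η * ∑ i ∈ EG, (1:ℝ) := by
      rw [Finset.mul_sum]; simp
    rw [h3] at h1
    have e : (2 * h + (r + 2 * h)) = r + 4 * h := by ring
    rw [e] at h2
    have h4 : η * ∑ i ∈ EG, (1:ℝ) ≤ (2 * k₀ + 1) * (((r + 4 * h) / b + 1) * volume.real Bd) :=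
      h1.trans (mul_le_mul_of_nonneg_left h2 (by positivity))
    rw [hc]
    rw [mul_comm, ← le_div_iff₀ hη] at h4
    refine h4.trans (le_of_eq ?_)
    ring
  rw [Finset.sum_congr rfl (fun i _ => Finset.sum_add_distrib), Finset.sum_add_distrib, e1, e2] at hsplit
  have hM0 : (0:ℝ) ≤ 2 * M + 1 := by positivity
  calc _ ≤ _ := hsplit
    _ ≤ 2 * ((2 * M + 1) * (∑ i ∈ B, (m i : ℝ) + 2 * P2)) := by linarith
    _ ≤ 2 * ((2 * M + 1) * ((∑ i ∈ Bdy, (m i : ℝ) + (2 * k₀ + 1) * ((r + 4 * h) / b + 1) / η * volume.real Bd + P2) + 2 * P2)) := by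
        apply mul_le_mul_of_nonneg_left _ (by norm_num)
        apply mul_le_mul_of_nonneg_left _ hM0
        linarith
    _ = _ := by ring

end Pool.Agent.H87.AH
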