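import Mathlib
import Pool.Agent.H87.AH.J3

/-!
# MP_103a5c_AH, block J4: number of real zeros of `Re (e^{iψ} e^{iλLt} D(t))`, asymptotically
-/

open MeasureTheory Set Filter Topology Metric
open scoped Real ComplexConjugate

namespace Pool.Agent.H87.AH

/-- quadratic polynomials in `log T` are negligible against `T log T` -/
lemma ev_log (A B C c : ℝ) (hc : 0 < c) :
    ∀ᶠ T in atTop, A + B * Real.log T + C * Real.log T ^ 2 ≤ c * T * Real.log T := by
  have h2 : (fun x : ℝ => Real.log x ^ 2) =o[atTop] (id : ℝ → ℝ) := Real.isLittleO_pow_log_id_atTop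
  set M : ℝ := |A| + |B| + |C| + 1 with hM
  have hMpos : 0 < M := by positivity
  have h3 := h2.bound (show 0 < c / M by positivity)
  filter_upwards [h3, eventually_ge_atTop (Real.exp 1), eventually_gt_atTop 0] with T hT hTe hT0
  have hL : 1 ≤ Real.log T := by
    rw [← Real.log_exp 1]
    exact Real.log_le_log (Real.exp_pos 1) hTe
  simp only [id, Real.norm_eq_abs, abs_pow, sq_abs, abs_of_pos hT0] at hT
  have hA : A ≤ |A| * Real.log T ^ 2 := by
    have := le_abs_self A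
    nlinarith [abs_nonneg A, mul_nonneg (abs_nonneg A) (sub_nonneg.mpr hL)]
  have hB : B * Real.log T ≤ |B| * Real.log T ^ 2 := by
    have h := mul_le_mul_of_nonneg_right (le_abs_self B) (show 0 ≤ Real.log T by linarith)
    nlinarith [mul_nonneg (abs_nonneg B) (mul_nonneg (show 0 ≤ Real.log T by linarith) (sub_nonneg.mpr hL))]
  have hC : C * Real.log T ^ 2 ≤ |C| * Real.log T ^ 2 :=
    mul_le_mul_of_nonneg_right (le_abs_self C) (sq_nonneg _)
  have h4 : A + B * Real.log T + C * Real.log T ^ 2 ≤ M * Real.log T ^ 2 := by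
    rw [hM]; nlinarith [sq_nonneg (Real.log T)]
  have h5 : M * Real.log T ^ 2 ≤ c * T := by
    have := mul_le_mul_of_nonneg_left hT hMpos.le
    calc M * Real.log T ^ 2 ≤ M * (c / M * T) := this
      _ = c * T := by field_simp
  have h6 : c * T ≤ c * T * Real.log T := by
    nlinarith [mul_pos hc hT0]
  linarith

/-- The number of real zeros in `[U, U + H]`. -/
theorem dir_count (θ lam c κ ε : ℝ) (hlam : 0 < lam) (hθ : θ < 2 * lam) (hc : 0 ≤ c) (hκ : 0 < κ) (hε : 0 < ε) :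
    ∀ᶠ T in atTop, ∀ (S : Finset ℕ) (d : ℕ → ℂ) (ψ : ℝ), 1 ∈ S →
      (∀ n ∈ S, 1 ≤ n ∧ Real.log n ≤ θ * Real.log T) → κ ≤ ‖d 1‖ → ∑ n ∈ S, ‖d n‖ ≤ Real.exp (c * Real.log T) →
      ∀ U H : ℝ, 0 ≤ H → H ≤ T → ∀ A : Finset ℝ, (∀ x ∈ A, aS S d ψ (lam * Real.log T) x = 0) →
        (∀ x ∈ A, U ≤ x ∧ x ≤ U + H) → (A.card : ℝ) ≤ lam * Real.log T / π * (H + ε * T) := by
  set ε₁ : ℝ := min ε 1 / 5 with hε₁
  have hε₁pos : 0 < ε₁ := by positivity
  have hε₁le : ε₁ ≤ 1 / 5 := by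
    rw [hε₁]; have := min_le_right ε 1; linarith
  have hε₁ε : 5 * ε₁ ≤ ε := by
    rw [hε₁]; have := min_le_left ε 1; linarith
  have hlog2 : 0 < Real.log 2 := Real.log_pos (by norm_num)
  set y₀ : ℝ := (c + 1) / Real.log 2 with hy₀
  have hy₀pos : 0 < y₀ := by positivity
  have hLtop : Tendsto (fun T : ℝ => Real.log T) atTop atTop := Real.tendsto_log_atTop
  -- conditions
  have c1 : ∀ᶠ T in atTop, Real.exp (c * Real.log T) * Real.exp (-(y₀ * Real.log T * Real.log 2)) ≤ κ / 4 := by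
    have h1 : Tendsto (fun T : ℝ => Real.exp (-(Real.log T))) atTop (𝓝 0) :=
      Real.tendsto_exp_neg_atTop_nhds_zero.comp hLtop
    filter_upwards [h1.eventually (ge_mem_nhds (show (0:ℝ) < κ / 4 by positivity))] with T hT
    rw [← Real.exp_add]
    have e : c * Real.log T + -(y₀ * Real.log T * Real.log 2) = -(Real.log T) := by
      rw [hy₀]; field_simp; ring
    rw [e]; exact hT
  have c2 : ∀ᶠ T in atTop, Real.exp (c * Real.log T) *
      Real.exp (-((2 * (lam * Real.log T) - θ * Real.log T) * (y₀ * Real.log T))) ≤ κ / 4 := by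
    have h1 : Tendsto (fun T : ℝ => Real.exp (-(Real.log T))) atTop (𝓝 0) :=
      Real.tendsto_exp_neg_atTop_nhds_zero.comp hLtop
    have hg : 0 < (2 * lam - θ) * y₀ := mul_pos (by linarith) hy₀pos
    filter_upwards [h1.eventually (ge_mem_nhds (show (0:ℝ) < κ / 4 by positivity)),
      hLtop.eventually_ge_atTop ((c + 1) / ((2 * lam - θ) * y₀)), hLtop.eventually_ge_atTop 0] with T hT hT2 hT0
    rw [← Real.exp_add]
    refine le_trans (Real.exp_le_exp.mpr ?_) hT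
    rw [div_le_iff₀ hg] at hT2
    have := mul_le_mul_of_nonneg_right hT2 hT0
    nlinarith
  have c3 := ev_log (-Real.log (κ / 4)) c (5 * y₀ * (lam / π) * (1 + ε₁)) (lam / π * (2 * ε₁ ^ 2))
    (by positivity)
  have c4 := ev_log 1 0 0 1 one_pos
  have c5 : ∀ᶠ T in atTop, 5 * (y₀ * Real.log T) ≤ ε₁ * T := by
    have h2 : (fun x : ℝ => Real.log x) =o[atTop] (id : ℝ → ℝ) := Real.isLittleO_log_id_atTop
    have h3 := h2.bound (show 0 < ε₁ / (5 * y₀) by positivity)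
    filter_upwards [h3, eventually_gt_atTop 1] with T hT hT1
    have hl : 0 < Real.log T := Real.log_pos hT1
    simp only [id, Real.norm_eq_abs, abs_of_pos hl, abs_of_pos (show 0 < T by linarith)] at hT
    have := mul_le_mul_of_nonneg_left hT (show 0 ≤ 5 * y₀ by positivity)
    calc 5 * (y₀ * Real.log T) = 5 * y₀ * Real.log T := by ring
      _ ≤ 5 * y₀ * (ε₁ / (5 * y₀) * T) := this
      _ = ε₁ * T := by field_simp
  filter_upwards [c1, c2, c3, c5, eventually_gt_atTop 1] with T h1 h2 h3 h5 hT1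
  intro S d ψ hS1 hS hd1 hK U H hH hHT A hA hAI
  have hT0 : 0 < T := by linarith
  have hL : 0 < Real.log T := Real.log_pos hT1
  set L := Real.log T with hLdef
  have hR : 0 < ε₁ * T := by positivity
  have hY : 0 < y₀ * L := by positivity
  have hΛ : 0 ≤ lam * L := by positivity
  have hK1 : 1 ≤ Real.exp (c * L) := Real.one_le_exp (by positivity)
  have hSb : ∀ n ∈ S, 1 ≤ n ∧ Real.log n ≤ 2 * (lam * L) := by
    intro n hn
    obtain ⟨a, b⟩ := hS n hn
    refine ⟨a, b.trans ?_⟩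
    nlinarith
  have hb : ∀ z, ‖aE S d ψ (lam * L) z‖ ≤ Real.exp (c * L) * Real.exp (lam * L * |z.im|) :=
    fun z => norm_aE_le hSb hK z
  have hlow : ∀ x₀ : ℝ, κ / 4 * Real.exp (lam * L * (y₀ * L)) ≤
      ‖aE S d ψ (lam * L) ((x₀ : ℂ) - ((y₀ * L : ℝ) : ℂ) * Complex.I)‖ := by
    intro x₀
    exact norm_aE_ge hS1 hS hK hd1 (y₀ * L) hY.le h1 h2 x₀
  have hcount := zeros_count (aE S d ψ (lam * L)) differentiable_aE (Real.exp (c * L)) (lam * L) hK1 hΛ hb
    (y₀ * L) (ε₁ * T) (κ / 4 * Real.exp (lam * L * (y₀ * L))) hY (by linarith) (by positivity) hlow U H hH A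
    (fun x hx => by rw [aE_ofReal, hA x hx]; rfl) hAI
  rw [Real.log_mul (by positivity) (Real.exp_pos _).ne', Real.log_exp, Real.log_exp] at hcount
  have e1 : c * L + lam * L * (2 * (ε₁ * T) / π + y₀ * L) - (Real.log (κ / 4) + lam * L * (y₀ * L)) =
      c * L + lam / π * (2 * ε₁ * T * L) - Real.log (κ / 4) := by ring
  rw [e1] at hcount
  have hden : 0 < 2 * (ε₁ * T) - 5 * (y₀ * L) := by linarith
  have hJ : c * L + lam / π * (2 * ε₁ * T * L) - Real.log (κ / 4) ≤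
      lam * L / π * (1 + ε₁) * (2 * (ε₁ * T) - 5 * (y₀ * L)) := by
    have e2 : lam * L / π * (1 + ε₁) * (2 * (ε₁ * T) - 5 * (y₀ * L)) =
      lam / π * (2 * ε₁ * T * L) + lam / π * (2 * ε₁ ^ 2) * T * L - 5 * y₀ * (lam / π) * (1 + ε₁) * L ^ 2 := by ring
    rw [e2]
    linarith
  have hHR : 0 ≤ H + 2 * (ε₁ * T) := by positivity
  have h6 : (A.card : ℝ) * (2 * (ε₁ * T) - 5 * (y₀ * L)) ≤
      ((H + 2 * (ε₁ * T)) * (lam * L / π * (1 + ε₁))) * (2 * (ε₁ * T) - 5 * (y₀ * L)) := by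
    have := mul_le_mul_of_nonneg_left hJ hHR
    calc _ ≤ _ := hcount
      _ ≤ _ := this
      _ = _ := by ring
  have h7 := le_of_mul_le_mul_right h6 hden
  refine h7.trans ?_
  have hlL : 0 ≤ lam * L / π := by positivity
  have h8 : (H + 2 * (ε₁ * T)) * (1 + ε₁) ≤ H + ε * T := by
    have a1 : ε₁ * H ≤ ε₁ * T := mul_le_mul_of_nonneg_left hHT hε₁pos.le
    have a2 : 2 * (ε₁ * T) * ε₁ ≤ 2 * (ε₁ * T) * (1 / 5) := mul_le_mul_of_nonneg_left hε₁le (by positivity)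
    have a3 : 5 * ε₁ * T ≤ ε * T := mul_le_mul_of_nonneg_right hε₁ε hT0.le
    nlinarith
  calc (H + 2 * (ε₁ * T)) * (lam * L / π * (1 + ε₁)) = lam * L / π * ((H + 2 * (ε₁ * T)) * (1 + ε₁)) := by ring
    _ ≤ lam * L / π * (H + ε * T) := mul_le_mul_of_nonneg_left h8 hlL

/-- The set of real zeros in a compact interval is finite, with the same bound. -/
theorem dir_count_finite (θ lam c κ ε : ℝ) (hlam : 0 < lam) (hθ : θ < 2 * lam) (hc : 0 ≤ c) (hκ : 0 < κ) (hε : 0 < ε) :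
    ∀ᶠ T in atTop, ∀ (S : Finset ℕ) (d : ℕ → ℂ) (ψ : ℝ), 1 ∈ S →
      (∀ n ∈ S, 1 ≤ n ∧ Real.log n ≤ θ * Real.log T) → κ ≤ ‖d 1‖ → ∑ n ∈ S, ‖d n‖ ≤ Real.exp (c * Real.log T) →
      ∀ U H : ℝ, 0 ≤ H → H ≤ T → ∃ A : Finset ℝ,
        (∀ x, x ∈ A ↔ (U ≤ x ∧ x ≤ U + H ∧ aS S d ψ (lam * Real.log T) x = 0)) ∧
        (A.card : ℝ) ≤ lam * Real.log T / π * (H + ε * T) := by
  filter_upwards [dir_count θ lam c κ ε hlam hθ hc hκ hε] with T hT
  intro S d ψ hS1 hS hd1 hK U H hH hHT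
  have hfin : {x : ℝ | U ≤ x ∧ x ≤ U + H ∧ aS S d ψ (lam * Real.log T) x = 0}.Finite := by
    by_contra hinf
    obtain ⟨n, hn⟩ := exists_nat_gt (lam * Real.log T / π * (H + ε * T))
    obtain ⟨A, hA, hcard⟩ := (show Set.Infinite _ from hinf).exists_subset_card_eq n
    have := hT S d ψ hS1 hS hd1 hK U H hH hHT A (fun x hx => (hA hx).2.2) (fun x hx => ⟨(hA hx).1, (hA hx).2.1⟩)
    rw [hcard] at this
    linarith
  refine ⟨hfin.toFinset, fun x => by simp, ?_⟩
  apply hT S d ψ hS1 hS hd1 hK U H hH hHT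
  · intro x hx
    simp only [Set.Finite.mem_toFinset, Set.mem_ofPred_eq] at hx
    exact hx.2.2
  · intro x hx
    simp only [Set.Finite.mem_toFinset, Set.mem_ofPred_eq] at hx
    exact ⟨hx.1, hx.2.1⟩

end Pool.Agent.H87.AH
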