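import Mathlib
import Pool.Agent.H87.AH.J4
import Pool.Agent.H87.AH.E2
import Pool.Agent.H6.Final

/-!
# MP_103a5c_AH, block O1: the zeros of zeta and the sign changes at one height `T`
-/

open MeasureTheory Set Filter Topology
open scoped Real ENNReal

namespace Pool.Agent.H87.AH

open Pool.Agent Pool.Agent.H6

lemma exists_zero_of_mul_neg {a : ℝ → ℝ} (ha : Continuous a) {u v : ℝ} (huv : u < v) (h : a u * a v < 0) :
    ∃ x ∈ Ioo u v, a x = 0 := by
  rcases mul_neg_iff.mp h with ⟨h1, h2⟩ | ⟨h1, h2⟩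
  · have := intermediate_value_Ioo' huv.le ha.continuousOn (show (0:ℝ) ∈ Ioo (a v) (a u) from ⟨h2, h1⟩)
    obtain ⟨x, hx, hx0⟩ := this
    exact ⟨x, hx, hx0⟩
  · have := intermediate_value_Ioo huv.le ha.continuousOn (show (0:ℝ) ∈ Ioo (a u) (a v) from ⟨h1, h2⟩)
    obtain ⟨x, hx, hx0⟩ := this
    exact ⟨x, hx, hx0⟩

lemma one_le_FW_of {P : Finset ℝ} {h t x : ℝ} (hx : x ∈ P) (hxt : |x - t| < h) : 1 ≤ FW P h t := by
  unfold FW
  rw [Nat.one_le_iff_ne_zero, ← Nat.pos_iff_ne_zero, Finset.card_pos]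
  exact ⟨x, Finset.mem_filter.mpr ⟨hx, hxt⟩⟩

lemma FW_pos {h t : ℝ} {a : ℝ → ℝ} (ha : Continuous a) {P : Finset ℝ} (hh : 0 < h)
    (hPz : ∀ i : PC.Z, |t - gZ i| < h → gZ i ∈ P) (hPa : ∀ x, |x - t| < h → a x = 0 → x ∈ P)
    (hs : (∀ i : PC.Z, h ≤ |t - gZ i|) → a (t - h) * a (t + h) < 0) : 1 ≤ FW P h t := by
  by_cases hz : ∃ i : PC.Z, |t - gZ i| < h
  · obtain ⟨i, hi⟩ := hz
    exact one_le_FW_of (hPz i hi) (by rw [abs_sub_comm]; exact hi)
  · push Not at hz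
    obtain ⟨x, hx, hx0⟩ := exists_zero_of_mul_neg ha (by linarith) (hs hz)
    have : |x - t| < h := by rw [abs_lt]; constructor <;> linarith [hx.1, hx.2]
    exact one_le_FW_of (hPa x this hx0) this

/-- The measure of the bad windows at height `T`. -/
theorem vol_bad_T {T b δ θ c κ : ℝ} (hb0 : 0 < b) (hb : b < 1 / 2) (hδ : 0 < δ) (hδ1 : δ < 1 / 4) (hT : 1 < T)
    (hL : 0 < Real.log T) (hh : 2 * (π * b / Real.log T) ≤ δ * T)
    (hW : ∑ i ∈ FZ T, wZ i ≤ (1 + δ) * PC.norm T)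
    (hJ : ∀ (S : Finset ℕ) (d : ℕ → ℂ) (ψ : ℝ), 1 ∈ S →
      (∀ n ∈ S, 1 ≤ n ∧ Real.log n ≤ θ * Real.log T) → κ ≤ ‖d 1‖ → ∑ n ∈ S, ‖d n‖ ≤ Real.exp (c * Real.log T) →
      ∀ U H : ℝ, 0 ≤ H → H ≤ T → ∃ A : Finset ℝ,
        (∀ x, x ∈ A ↔ (U ≤ x ∧ x ≤ U + H ∧ aS S d ψ ((1 - b) / (2 * b) * Real.log T) x = 0)) ∧
        (A.card : ℝ) ≤ (1 - b) / (2 * b) * Real.log T / π * (H + δ * T))
    (S : Finset ℕ) (d : ℕ → ℂ) (ψ : ℝ) (Bad : Set ℝ) (h1S : 1 ∈ S)
    (hSl : ∀ n ∈ S, 1 ≤ n ∧ Real.log n ≤ θ * Real.log T) (hd1 : κ ≤ ‖d 1‖) (hdl : ∑ n ∈ S, ‖d n‖ ≤ Real.exp (c * Real.log T))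
    (hBv : volume.real (Bad ∩ Icc (δ * T) ((1 - δ) * T)) ≤ δ * T)
    (hs : ∀ t ∈ Icc (δ * T) ((1 - δ) * T), t ∉ Bad → (∀ i : PC.Z, π * b / Real.log T ≤ |t - gZ i|) →
      aS S d ψ ((1 - b) / (2 * b) * Real.log T) (t - π * b / Real.log T) *
        aS S d ψ ((1 - b) / (2 * b) * Real.log T) (t + π * b / Real.log T) < 0) :
    ∃ P : Finset ℝ, (∀ i ∈ FZ T, gZ i ∈ P) ∧
      volume.real (badF P (π * b / Real.log T) (δ * T) ((1 - 2 * δ) * T)) ≤ 5 * δ * T := by
  classical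
  set h := π * b / Real.log T with hhdef
  have hhpos : 0 < h := by positivity
  have hT0 : 0 < T := by linarith
  set lam := (1 - b) / (2 * b) with hlam
  have hlampos : 0 < lam := by
    rw [hlam]; apply div_pos <;> linarith
  obtain ⟨A, hA, hAc⟩ := hJ S d ψ h1S hSl hd1 hdl (δ * T - h) ((1 - 2 * δ) * T + 2 * h)
    (by nlinarith) (by nlinarith)
  set P := (FZ T).image gZ ∪ A with hP
  refine ⟨P, fun i hi => Finset.mem_union_left _ (Finset.mem_image_of_mem gZ hi), ?_⟩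
  -- number of points
  have hcardG : (((FZ T).image gZ).card : ℝ) ≤ (1 + δ) * PC.norm T := by
    calc (((FZ T).image gZ).card : ℝ) ≤ ((FZ T).card : ℝ) := by exact_mod_cast Finset.card_image_le
      _ = ∑ i ∈ FZ T, (1:ℝ) := by simp
      _ ≤ ∑ i ∈ FZ T, wZ i := Finset.sum_le_sum fun i _ => one_le_wZ i
      _ ≤ _ := hW
  have hcardA : (A.card : ℝ) ≤ lam * Real.log T / π * T := by
    refine hAc.trans ?_
    apply mul_le_mul_of_nonneg_left _ (by positivity)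
    nlinarith
  have hcard : (P.card : ℝ) ≤ (1 + δ) * PC.norm T + lam * Real.log T / π * T := by
    have : (P.card : ℝ) ≤ (((FZ T).image gZ).card : ℝ) + (A.card : ℝ) := by
      exact_mod_cast Finset.card_union_le _ _
    linarith
  have h2hP : 2 * h * P.card ≤ (1 + δ) * T := by
    have e1 : 2 * h * ((1 + δ) * PC.norm T + lam * Real.log T / π * T) = b * (1 + δ) * T + 2 * b * lam * T := by
      unfold PC.norm
      rw [hhdef]
      have := Real.pi_pos
      field_simp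
    have e2 : 2 * b * lam = 1 - b := by
      rw [hlam]; field_simp
    have := mul_le_mul_of_nonneg_left hcard (show 0 ≤ 2 * h by positivity)
    rw [e1, e2] at this
    nlinarith
  -- the bad set
  set Bad' := toMeasurable volume (Bad ∩ Icc (δ * T) ((1 - δ) * T)) ∩ Icc (δ * T) ((1 - δ) * T) with hBad'
  have eI : δ * T + (1 - 2 * δ) * T = (1 - δ) * T := by ring
  have hBad'm : MeasurableSet Bad' := (measurableSet_toMeasurable _ _).inter measurableSet_Icc
  have hBad's : Bad' ⊆ Icc (δ * T) (δ * T + (1 - 2 * δ) * T) := by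
    rw [eI]
    exact inter_subset_right
  have hBad'v : volume.real Bad' ≤ δ * T := by
    refine le_trans ?_ hBv
    have h1 : volume Bad' ≤ volume (Bad ∩ Icc (δ * T) ((1 - δ) * T)) := by
      rw [← measure_toMeasurable (Bad ∩ Icc (δ * T) ((1 - δ) * T))]
      exact measure_mono inter_subset_left
    have h2 : volume (Bad ∩ Icc (δ * T) ((1 - δ) * T)) ≠ ∞ := by
      refine ((measure_mono inter_subset_right).trans_lt ?_).ne
      rw [Real.volume_Icc]; exact ENNReal.ofReal_lt_top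
    exact ENNReal.toReal_mono h2 h1
  have hF : ∀ t ∈ Icc (δ * T) (δ * T + (1 - 2 * δ) * T), t ∉ Bad' → 1 ≤ FW P h t := by
    intro t ht htB
    rw [eI] at ht
    have hmem : ∀ i : PC.Z, |t - gZ i| < h → i ∈ FZ T := by
      intro i hi
      rw [abs_lt] at hi
      rw [mem_FZ]
      constructor
      · nlinarith [hi.2, ht.1]
      · nlinarith [hi.1, ht.2]
    apply FW_pos (continuous_aS (S := S) (d := d) (ψ := ψ) (Λ := lam * Real.log T)) hhpos
    · intro i hi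
      exact Finset.mem_union_left _ (Finset.mem_image_of_mem gZ (hmem i hi))
    · intro x hx hx0
      rw [abs_lt] at hx
      apply Finset.mem_union_right
      rw [hA]
      refine ⟨by linarith [ht.1], by nlinarith [ht.2], hx0⟩
    · intro hz
      have htBad : t ∉ Bad := fun hb => htB ⟨subset_toMeasurable _ _ ⟨hb, ht⟩, ht⟩
      exact hs t ht htBad hz
  have hmain := vol_badF_le P h (δ * T) ((1 - 2 * δ) * T) hhpos.le (by nlinarith) Bad' hBad'm hBad's hF
  nlinarith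

end Pool.Agent.H87.AH
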