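import Mathlib
import Pool.Agent.H87.AH.O1
import Pool.Agent.H68.AH.Defs

/-!
# MP_103a5c_AH, block O2: pairs of zeros off `(1/2) ℤ` are negligible
-/

open MeasureTheory Set Filter Topology
open scoped Real ENNReal

namespace Pool.Agent.H87.AH

open Pool.Agent Pool.Agent.H6

/-- normalised differences -/
noncomputable def xij (T : ℝ) (i j : PC.Z) : ℝ := (gZ i - gZ j) * Real.log T / (2 * π)

lemma tendsto_count (RH : RiemannHypothesis) :
    Tendsto (fun T => (1 / PC.norm T) * ∑ i ∈ FZ T, wZ i) atTop (𝓝 1) := by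
  obtain ⟨CR, I⟩ := exists_inputs RH
  exact I.count

lemma tendsto_norm_ratio {u : ℝ} (hu : 0 < u) : Tendsto (fun T => PC.norm (u * T) / PC.norm T) atTop (𝓝 u) := by
  have h1 : Tendsto (fun T : ℝ => u * (1 + Real.log u / Real.log T)) atTop (𝓝 (u * (1 + 0))) := by
    apply Tendsto.const_mul
    apply Tendsto.const_add
    exact Tendsto.const_div_atTop Real.tendsto_log_atTop _
  rw [add_zero, mul_one] at h1
  apply h1.congr'
  filter_upwards [eventually_gt_atTop 1] with T hT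
  have hT0 : 0 < T := by linarith
  have hL : 0 < Real.log T := Real.log_pos hT
  unfold PC.norm
  rw [Real.log_mul hu.ne' hT0.ne']
  have := Real.pi_pos
  field_simp
  ring

lemma tendsto_count_mul (RH : RiemannHypothesis) {u : ℝ} (hu : 0 < u) :
    Tendsto (fun T => (1 / PC.norm T) * ∑ i ∈ FZ (u * T), wZ i) atTop (𝓝 u) := by
  have h1 := (tendsto_count RH).comp (Tendsto.const_mul_atTop hu tendsto_id)
  have h2 := h1.mul (tendsto_norm_ratio hu)
  rw [one_mul] at h2
  apply h2.congr'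
  filter_upwards [eventually_gt_atTop (max 1 (1 / u))] with T hT
  have hT1 : 1 < T := lt_of_le_of_lt (le_max_left _ _) hT
  have hT2 : 1 / u < T := lt_of_le_of_lt (le_max_right _ _) hT
  have hn : PC.norm (u * T) ≠ 0 := by
    apply (norm_pos _).ne'
    rw [div_lt_iff₀ hu] at hT2
    linarith
  simp only [Function.comp, id]
  field_simp

open Classical in
/-- the weight of pairs at distance `≤ β` in terms of `N(T; 0, β)` -/
lemma pairs_le (RH : RiemannHypothesis) (T β : ℝ) (hβ : 0 ≤ 2 * π * β / Real.log T) :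
    ∑ i ∈ FZ T, ∑ j ∈ FZ T, (if |gZ i - gZ j| ≤ 2 * π * β / Real.log T then wZ i * wZ j else 0) - ∑ i ∈ FZ T, wZ i ≤
      2 * (PC.pairCount T 0 β - ∑ i ∈ FZ T, wZ i) := by
  have hsq : ∑ i ∈ FZ T, wZ i ≤ ∑ i ∈ FZ T, ∑ j ∈ FZ T, (if i = j then wZ i * wZ j else 0) := by
    apply Finset.sum_le_sum
    intro i hi
    rw [Finset.sum_ite_eq, if_pos hi]
    have := one_le_wZ i
    nlinarith
  have hpt : ∑ i ∈ FZ T, ∑ j ∈ FZ T, (if |gZ i - gZ j| ≤ 2 * π * β / Real.log T then wZ i * wZ j else 0) ≤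
      ∑ i ∈ FZ T, ∑ j ∈ FZ T, ((if 2 * π * 0 / Real.log T ≤ gZ i - gZ j ∧ gZ i - gZ j ≤ 2 * π * β / Real.log T then wZ i * wZ j else 0) +
        ((if 2 * π * 0 / Real.log T ≤ gZ j - gZ i ∧ gZ j - gZ i ≤ 2 * π * β / Real.log T then wZ i * wZ j else 0) -
        (if i = j then wZ i * wZ j else 0))) := by
    apply Finset.sum_le_sum
    intro i _
    apply Finset.sum_le_sum
    intro j _
    have hw : 0 ≤ wZ i * wZ j := mul_nonneg (wZ_nonneg i) (wZ_nonneg j)
    have e0 : 2 * π * 0 / Real.log T = 0 := by simp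
    rw [e0]
    by_cases hij : i = j
    · subst hij
      rw [sub_self, abs_zero]
      simp only [le_refl, true_and, if_true]
      simp only [hβ, if_true]
      linarith
    · rw [if_neg hij]
      by_cases hc : |gZ i - gZ j| ≤ 2 * π * β / Real.log T
      · rw [if_pos hc]
        obtain ⟨c1, c2⟩ := abs_le.mp hc
        rcases le_total 0 (gZ i - gZ j) with h0 | h0
        · rw [if_pos ⟨h0, c2⟩]
          have : 0 ≤ (if 0 ≤ gZ j - gZ i ∧ gZ j - gZ i ≤ 2 * π * β / Real.log T then wZ i * wZ j else 0) := by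
            split_ifs <;> [exact hw; exact le_rfl]
          linarith
        · have h0' : 0 ≤ gZ j - gZ i := by linarith
          rw [if_pos (⟨h0', by linarith⟩ : 0 ≤ gZ j - gZ i ∧ gZ j - gZ i ≤ 2 * π * β / Real.log T)]
          have : 0 ≤ (if 0 ≤ gZ i - gZ j ∧ gZ i - gZ j ≤ 2 * π * β / Real.log T then wZ i * wZ j else 0) := by
            split_ifs <;> [exact hw; exact le_rfl]
          linarith
      · rw [if_neg hc]
        have t1 : 0 ≤ (if 0 ≤ gZ i - gZ j ∧ gZ i - gZ j ≤ 2 * π * β / Real.log T then wZ i * wZ j else 0) := by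
          split_ifs <;> [exact hw; exact le_rfl]
        have t2 : 0 ≤ (if 0 ≤ gZ j - gZ i ∧ gZ j - gZ i ≤ 2 * π * β / Real.log T then wZ i * wZ j else 0) := by
          split_ifs <;> [exact hw; exact le_rfl]
        linarith
  have e1 : ∑ i ∈ FZ T, ∑ j ∈ FZ T, (if 2 * π * 0 / Real.log T ≤ gZ j - gZ i ∧ gZ j - gZ i ≤ 2 * π * β / Real.log T then wZ i * wZ j else 0) =
      PC.pairCount T 0 β := by
    rw [pairCount_eq RH, Finset.sum_comm]
    apply Finset.sum_congr rfl
    intro i _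
    apply Finset.sum_congr rfl
    intro j _
    rw [mul_comm (wZ j)]
  simp only [Finset.sum_add_distrib, Finset.sum_sub_distrib] at hpt
  rw [e1, ← pairCount_eq RH] at hpt
  linarith

/-- The conclusion of `core` (Pool/Agent/H68/AH/Iface.lean) along one filter. -/
def CoreFF (FF : Filter ℝ) : Prop :=
  ∀ p δ₁ α β : ℝ, 0 < p → δ₁ < 1 / 2 → 0 < α → α < β → β < 1 →
    ∃ δ θ κ c : ℝ, δ₁ < δ ∧ δ < 1 / 2 ∧ 0 < θ ∧ θ < 1 ∧ 0 < κ ∧ 0 ≤ c ∧ ∀ᶠ T in FF,
      ∃ (S : Finset ℕ) (d : ℕ → ℂ) (Bad : Set ℝ), 1 ∈ S ∧ (∀ n ∈ S, 1 ≤ n ∧ Real.log n ≤ θ * Real.log T) ∧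
        κ ≤ ‖d 1‖ ∧ ∑ n ∈ S, ‖d n‖ ≤ Real.exp (c * Real.log T) ∧
        volume.real (Bad ∩ Icc (α * T) (β * T)) ≤ p * T ∧
        ∀ t ∈ Icc (α * T) (β * T), t ∉ Bad → (∀ i : PC.Z, π * δ / Real.log T ≤ |t - gZ i|) →
          aS S d 0 ((1 - δ) / (2 * δ) * Real.log T) (t - π * δ / Real.log T) *
            aS S d 0 ((1 - δ) / (2 * δ) * Real.log T) (t + π * δ / Real.log T) < 0

lemma lattice_shift {D R η b : ℝ} (hD : |D| ≤ R) (hoff : ∀ k : ℤ, η ≤ |D - k / 2|) (hb : 1 / 4 ≤ b) (hb2 : b < 1 / 2)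
    (hs : (4 * R + 4) * (1 / 2 - b) ≤ η / 2) (k : ℤ) : min (η / 2) (1 / 8) ≤ |D - b * k| := by
  rcases le_total |(k : ℝ)| (4 * R + 4) with hk | hk
  · refine (min_le_left _ _).trans ?_
    have h1 := hoff k
    have h2 : |D - k / 2| ≤ |D - b * k| + |(k:ℝ)| * (1 / 2 - b) := by
      have e : D - k / 2 = (D - b * k) + (-(k * (1 / 2 - b))) := by ring
      rw [e]
      refine (abs_add_le _ _).trans ?_
      rw [abs_neg, abs_mul, abs_of_pos (show 0 < 1 / 2 - b by linarith)]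
    have h3 : |(k:ℝ)| * (1 / 2 - b) ≤ (4 * R + 4) * (1 / 2 - b) := mul_le_mul_of_nonneg_right hk (by linarith)
    linarith
  · refine (min_le_right _ _).trans ?_
    have h1 : |b * k| ≤ |D - b * k| + |D| := by
      have e : b * k = -(D - b * k) + D := by ring
      calc |b * k| = |-(D - b * k) + D| := by rw [← e]
        _ ≤ |-(D - b * k)| + |D| := abs_add_le _ _
        _ = _ := by rw [abs_neg]
    have h2 : |b * k| = b * |(k:ℝ)| := by rw [abs_mul, abs_of_pos (by linarith)]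
    have h3 : (1 / 4) * (4 * R + 4) ≤ b * |(k:ℝ)| := by
      have hR : 0 ≤ R := (abs_nonneg D).trans hD
      exact mul_le_mul hb hk (by positivity) (by linarith)
    linarith

open Classical in
/-- the weighted number of pairs off the lattice -/
noncomputable def OffSum (R η T : ℝ) : ℝ :=
  ∑ i ∈ FZ T, ∑ j ∈ FZ T, (if |xij T i j| ≤ R ∧ ∀ k : ℤ, η ≤ |xij T i j - k / 2| then wZ i * wZ j else 0)

lemma OffSum_nonneg (R η T : ℝ) : 0 ≤ OffSum R η T := by
  classical
  apply Finset.sum_nonneg; intro i _; apply Finset.sum_nonneg; intro j _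
  split_ifs <;> [exact mul_nonneg (wZ_nonneg i) (wZ_nonneg j); exact le_rfl]

/-- **Pairs of zeros off `(1/2) ℤ` are negligible.** -/
theorem off_lattice (RH : RiemannHypothesis) {FF : Filter ℝ} (hF : H68.AH.Hyp FF) (hC : CoreFF FF) {R η : ℝ}
    (hR : 0 < R) (hη : 0 < η) : Tendsto (fun T => OffSum R η T / PC.norm T) FF (𝓝 0) := by
  classical
  obtain ⟨M, hM⟩ := exists_nat_ge (4 * R + 1)
  set η₁ : ℝ := min (η / 2) (1 / 8) with hη₁
  have hη₁pos : 0 < η₁ := by positivity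
  set C₁ : ℝ := 2 * (2 * M + 1) * (19 + 5 * (2 * M + 1) * (4 * R + 5) / η₁) with hC₁
  have hC₁pos : 0 < C₁ := by positivity
  rw [Metric.tendsto_nhds]
  intro ε hε
  set δ : ℝ := min (1 / 8) (ε / (2 * C₁)) with hδdef
  have hδ : 0 < δ := by positivity
  have hδ8 : δ ≤ 1 / 8 := min_le_left _ _
  have hδε : C₁ * δ ≤ ε / 2 := by
    have : δ ≤ ε / (2 * C₁) := min_le_right _ _
    calc C₁ * δ ≤ C₁ * (ε / (2 * C₁)) := mul_le_mul_of_nonneg_left this hC₁pos.le
      _ = ε / 2 := by field_simp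
  set s : ℝ := min (1 / 4) (η / (8 * (R + 1))) with hsdef
  have hs : 0 < s := by positivity
  obtain ⟨b, θ, κ, c, hb1, hb2, hθ0, hθ1, hκ, hc, hcore⟩ := hC δ (1 / 2 - s) δ (1 - δ) hδ (by linarith) hδ
    (by linarith) (by linarith)
  have hb4 : 1 / 4 < b := by have : s ≤ 1 / 4 := min_le_left _ _; linarith
  have hbs : (4 * R + 4) * (1 / 2 - b) ≤ η / 2 := by
    have h1 : s ≤ η / (8 * (R + 1)) := min_le_right _ _
    have h2 : 1 / 2 - b ≤ η / (8 * (R + 1)) := by linarith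
    calc (4 * R + 4) * (1 / 2 - b) ≤ (4 * R + 4) * (η / (8 * (R + 1))) :=
          mul_le_mul_of_nonneg_left h2 (by positivity)
      _ = η / 2 := by field_simp; ring
  have hlampos : 0 < (1 - b) / (2 * b) := by apply div_pos <;> linarith
  have hθlam : θ < 2 * ((1 - b) / (2 * b)) := by
    have : 1 < 2 * ((1 - b) / (2 * b)) := by
      rw [show 2 * ((1 - b) / (2 * b)) = (1 - b) / b by field_simp, lt_div_iff₀ (by linarith)]
      linarith
    linarith
  have hJ := hF.le (dir_count_finite θ ((1 - b) / (2 * b)) c κ δ hlampos hθlam hc hκ hδ)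
  have hcnt := (tendsto_count RH).mono_left hF.le
  have hcnt1 := (tendsto_count_mul RH (u := 2 * δ) (by positivity)).mono_left hF.le
  have hcnt2 := (tendsto_count_mul RH (u := 1 - 2 * δ) (by linarith)).mono_left hF.le
  have hpc := hF.tend (1 / 4) (by norm_num) (by norm_num)
  have hlogtop : Tendsto (fun T : ℝ => Real.log T) FF atTop := Real.tendsto_log_atTop.mono_left hF.le
  have hTtop : Tendsto (fun T : ℝ => T) FF atTop := tendsto_id.mono_left hF.le
  filter_upwards [hcore, hJ, hcnt.eventually (gt_mem_nhds (show (1:ℝ) < 1 + δ by linarith)),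
    hcnt.eventually (lt_mem_nhds (show (1:ℝ) - δ < 1 by linarith)),
    hcnt1.eventually (gt_mem_nhds (show 2 * δ < 3 * δ by linarith)),
    hcnt2.eventually (lt_mem_nhds (show 1 - 3 * δ < 1 - 2 * δ by linarith)),
    hpc.eventually (gt_mem_nhds (show (1:ℝ) < 1 + δ by linarith)),
    hlogtop.eventually_ge_atTop 1, hTtop.eventually_gt_atTop 1,
    hTtop.eventually_ge_atTop ((2 * π * R + 2 * π) / δ)] with T hcoreT hJT hc1 hc2 hc3 hc4 hpcT hL1 hT1 hTb
  have hT0 : 0 < T := by linarith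
  have hL : 0 < Real.log T := by linarith
  have hn : 0 < PC.norm T := norm_pos hT1
  have hπ := Real.pi_pos
  set L := Real.log T with hLdef
  rw [div_le_iff₀ hδ] at hTb
  -- scales
  set h := π * b / L with hh
  set r := 2 * π * R / L with hr
  have hhpos : 0 < h := by positivity
  have hrpos : 0 < r := by positivity
  have hh1 : h ≤ π / 2 := by
    rw [hh, div_le_iff₀ hL]; nlinarith
  have hr1 : r ≤ 2 * π * R := by
    rw [hr]; exact div_le_self (by positivity) hL1
  have h2h : 2 * h ≤ δ * T := by nlinarith [mul_pos hπ hR]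
  have hr2h : r + 2 * h ≤ δ * T := by nlinarith [mul_pos hπ hR]
  -- counts
  rw [one_div, inv_mul_lt_iff₀ hn] at hc1
  rw [one_div, lt_inv_mul_iff₀ hn] at hc2
  rw [one_div, inv_mul_lt_iff₀ hn] at hc3
  rw [one_div, lt_inv_mul_iff₀ hn] at hc4
  rw [div_lt_iff₀ hn] at hpcT
  obtain ⟨S, d, Bad, g1, g2, g3, g4, g5, g6⟩ := hcoreT
  obtain ⟨P, hP, hPv⟩ := vol_bad_T (T := T) (b := b) (δ := δ) (θ := θ) (c := c) (κ := κ) (by linarith) hb2 hδ (by linarith)
    hT1 hL h2h (by linarith) hJT S d 0 Bad g1 g2 g3 g4 g5 g6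
  have hoff := off_pairs (FZ T) gZ (fun i : PC.Z => PC.m i) (fun i _ => H5.one_le_m i.2) P h (δ * T)
    ((1 - 2 * δ) * T) r (2 * π * η₁ / L) (2 * π * (1 / 4) / L) M M (by positivity)
    (by
      rw [hh]
      apply div_le_div_of_nonneg_right _ hL.le
      have : η₁ ≤ 1 / 8 := min_le_right _ _
      nlinarith)
    (by positivity) hrpos.le
    (by
      have e : (M : ℝ) * (2 * π * (1 / 4) / L) = (M * (2 * π * (1 / 4))) / L := by ring
      rw [hr, ← add_div, e]
      apply div_le_div_of_nonneg_right _ hL.le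
      nlinarith)
    (by
      rw [hr, hh]
      have e : 2 * (π * b / L) * (M : ℝ) = 2 * π * (b * M) / L := by ring
      rw [e]
      apply div_le_div_of_nonneg_right _ hL.le
      have : R ≤ b * M := by nlinarith
      nlinarith)
    (fun i hi _ _ => hP i hi)
  have hwm : ∀ i : PC.Z, ((PC.m i : ℕ) : ℝ) = wZ i := fun i => rfl
  simp only [hwm] at hoff
  -- the left side
  have hle : OffSum R η T ≤ ∑ i ∈ FZ T, ∑ j ∈ FZ T, (if |gZ i - gZ j| ≤ r ∧ ∀ k : ℤ, 2 * π * η₁ / L ≤ |gZ i - gZ j - 2 * h * k|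
      then wZ i * wZ j else 0) := by
    apply Finset.sum_le_sum
    intro i _
    apply Finset.sum_le_sum
    intro j _
    have hw : 0 ≤ wZ i * wZ j := mul_nonneg (wZ_nonneg i) (wZ_nonneg j)
    by_cases hc : |xij T i j| ≤ R ∧ ∀ k : ℤ, η ≤ |xij T i j - k / 2|
    · have e : gZ i - gZ j = 2 * π / L * xij T i j := by
        unfold xij
        rw [← hLdef]
        field_simp
      have hLp : 0 < 2 * π / L := by positivity
      have hc' : |gZ i - gZ j| ≤ r ∧ ∀ k : ℤ, 2 * π * η₁ / L ≤ |gZ i - gZ j - 2 * h * k| := by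
        constructor
        · rw [e, abs_mul, abs_of_pos hLp, hr]
          calc 2 * π / L * |xij T i j| ≤ 2 * π / L * R := mul_le_mul_of_nonneg_left hc.1 hLp.le
            _ = 2 * π * R / L := by ring
        · intro k
          have h1 := lattice_shift hc.1 hc.2 hb4.le hb2 hbs k
          have e2 : gZ i - gZ j - 2 * h * k = 2 * π / L * (xij T i j - b * k) := by
            rw [e, hh]; ring
          rw [e2, abs_mul, abs_of_pos hLp]
          calc 2 * π * η₁ / L = 2 * π / L * η₁ := by ring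
            _ ≤ _ := mul_le_mul_of_nonneg_left h1 hLp.le
      rw [if_pos hc, if_pos hc']
    · rw [if_neg hc]
      split_ifs <;> [exact hw; exact le_rfl]
  -- the boundary
  have hbdy : ∑ i ∈ (FZ T).filter (fun i => gZ i < δ * T + 2 * h ∨ δ * T + (1 - 2 * δ) * T - r - 2 * h < gZ i), wZ i ≤
      7 * δ * PC.norm T := by
    have hsub : (FZ T).filter (fun i => gZ i < δ * T + 2 * h ∨ δ * T + (1 - 2 * δ) * T - r - 2 * h < gZ i) ⊆
        FZ (2 * δ * T) ∪ (FZ T \ FZ ((1 - 2 * δ) * T)) := by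
      intro i hi
      obtain ⟨hi1, hi2⟩ := Finset.mem_filter.mp hi
      rw [Finset.mem_union, Finset.mem_sdiff, mem_FZ, mem_FZ, mem_FZ]
      rw [mem_FZ] at hi1
      rcases hi2 with hi2 | hi2
      · left; exact ⟨hi1.1, by linarith⟩
      · right
        refine ⟨hi1, fun hcon => ?_⟩
        have := hcon.2
        linarith
    have hsub2 : FZ ((1 - 2 * δ) * T) ⊆ FZ T := by
      intro i hi
      rw [mem_FZ] at hi ⊢
      exact ⟨hi.1, by nlinarith [hi.2]⟩
    have h1 := Finset.sum_le_sum_of_subset_of_nonneg hsub (f := wZ) (fun i _ _ => wZ_nonneg i)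
    have h2 : ∑ i ∈ FZ (2 * δ * T) ∪ (FZ T \ FZ ((1 - 2 * δ) * T)), wZ i ≤
        ∑ i ∈ FZ (2 * δ * T), wZ i + ∑ i ∈ FZ T \ FZ ((1 - 2 * δ) * T), wZ i := by
      have := Finset.sum_union_inter (s₁ := FZ (2 * δ * T)) (s₂ := FZ T \ FZ ((1 - 2 * δ) * T)) (f := wZ)
      have n : (0:ℝ) ≤ ∑ i ∈ FZ (2 * δ * T) ∩ (FZ T \ FZ ((1 - 2 * δ) * T)), wZ i :=
        Finset.sum_nonneg fun i _ => wZ_nonneg i
      linarith
    have h3 : ∑ i ∈ FZ T \ FZ ((1 - 2 * δ) * T), wZ i + ∑ i ∈ FZ ((1 - 2 * δ) * T), wZ i = ∑ i ∈ FZ T, wZ i :=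
      Finset.sum_sdiff hsub2
    linarith
  -- multiplicities
  have hP2 := pairs_le RH T (1 / 4) (by positivity)
  -- the volume
  have hvol : (2 * (M:ℝ) + 1) * ((r + 4 * h) / (2 * π * (1 / 4) / L) + 1) / (2 * π * η₁ / L) *
      volume.real (badF P h (δ * T) ((1 - 2 * δ) * T)) ≤ 5 * (2 * M + 1) * (4 * R + 5) / η₁ * δ * PC.norm T := by
    have e1 : (r + 4 * h) / (2 * π * (1 / 4) / L) = 4 * R + 8 * b := by
      rw [hr, hh]; field_simp; ring
    rw [e1]
    have h1 : (2 * (M:ℝ) + 1) * (4 * R + 8 * b + 1) / (2 * π * η₁ / L) ≤ (2 * (M:ℝ) + 1) * (4 * R + 5) / (2 * π * η₁ / L) := by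
      apply div_le_div_of_nonneg_right _ (by positivity)
      apply mul_le_mul_of_nonneg_left _ (by positivity)
      linarith
    calc (2 * (M:ℝ) + 1) * (4 * R + 8 * b + 1) / (2 * π * η₁ / L) * volume.real (badF P h (δ * T) ((1 - 2 * δ) * T))
        ≤ (2 * (M:ℝ) + 1) * (4 * R + 5) / (2 * π * η₁ / L) * (5 * δ * T) := by
          apply mul_le_mul h1 hPv measureReal_nonneg (by positivity)
      _ = 5 * (2 * M + 1) * (4 * R + 5) / η₁ * δ * PC.norm T := by
          unfold PC.norm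
          rw [← hLdef]
          field_simp
  have hfinal : OffSum R η T ≤ C₁ * δ * PC.norm T := by
    have hM0 : (0:ℝ) ≤ 2 * (2 * M + 1) := by positivity
    refine hle.trans (hoff.trans ?_)
    have e : C₁ * δ * PC.norm T = 2 * (2 * M + 1) * (7 * δ * PC.norm T + 5 * (2 * M + 1) * (4 * R + 5) / η₁ * δ * PC.norm T +
        3 * (4 * δ * PC.norm T)) := by
      rw [hC₁]; ring
    rw [e]
    apply mul_le_mul_of_nonneg_left _ hM0
    apply add_le_add (add_le_add hbdy hvol)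
    apply mul_le_mul_of_nonneg_left _ (by norm_num)
    refine hP2.trans ?_
    linarith
  rw [Real.dist_0_eq_abs, abs_of_nonneg (div_nonneg (OffSum_nonneg _ _ _) hn.le), div_lt_iff₀ hn]
  nlinarith

end Pool.Agent.H87.AH
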