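import Mathlib
import Pool.Agent.H87.AH.O2
import Pool.Agent.H84.AH.V7

/-!
# MP_103a5c_AH, block O3: from the parity statement `core` to the Alternative Hypothesis values
-/

open MeasureTheory Set Filter Topology
open scoped Real ENNReal

namespace Pool.Agent.H87.AH

open Pool.Agent Pool.Agent.H6

/-- The statement `core` of Pool/Agent/H68/AH/Iface.lean. -/
def CoreP : Prop := ∀ {p δ₁ α β : ℝ}, 0 < p → δ₁ < 1 / 2 → 0 < α → α < β → β < 1 →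
    ∃ δ θ κ c : ℝ, δ₁ < δ ∧ δ < 1 / 2 ∧ 0 < θ ∧ θ < 1 ∧ 0 < κ ∧ 0 ≤ c ∧ ∀ FF : Filter ℝ, H68.AH.Hyp FF → ∀ᶠ T in FF,
      ∃ (S : Finset ℕ) (d : ℕ → ℂ) (Bad : Set ℝ), 1 ∈ S ∧ (∀ n ∈ S, 1 ≤ n ∧ Real.log n ≤ θ * Real.log T) ∧
        κ ≤ ‖d 1‖ ∧ ∑ n ∈ S, ‖d n‖ ≤ Real.exp (c * Real.log T) ∧
        volume.real (Bad ∩ Icc (α * T) (β * T)) ≤ p * T ∧
        ∀ t ∈ Icc (α * T) (β * T), t ∉ Bad → (∀ i : PC.Z, π * δ / Real.log T ≤ |t - gZ i|) →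
          aS S d 0 ((1 - δ) / (2 * δ) * Real.log T) (t - π * δ / Real.log T) *
            aS S d 0 ((1 - δ) / (2 * δ) * Real.log T) (t + π * δ / Real.log T) < 0

lemma CoreP.coreFF (h : CoreP) {FF : Filter ℝ} (hF : H68.AH.Hyp FF) : CoreFF FF := by
  intro p δ₁ α β hp hδ hα hαβ hβ
  obtain ⟨δ, θ, κ, c, h1, h2, h3, h4, h5, h6, h7⟩ := h hp hδ hα hαβ hβ
  exact ⟨δ, θ, κ, c, h1, h2, h3, h4, h5, h6, h7 FF hF⟩

/-- The Alternative Hypothesis values along a filter, from `core`. -/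
theorem main_of_core (RH : RiemannHypothesis) {FF : Filter ℝ} (hF : H68.AH.Hyp FF) (hC : CoreFF FF) {a b : ℝ}
    (ha : ∀ k : ℤ, a ≠ k / 2) (hb : ∀ k : ℤ, b ≠ k / 2) :
    Tendsto (fun T => PC.pairCount T a b / PC.norm T) FF (𝓝 (H68.AH.predAH a b)) := by
  apply H84.AH.main_of_off RH hF _ ha hb
  intro R ε hR hε
  have h := off_lattice RH hF hC hR hε
  refine h.congr fun T => ?_
  unfold OffSum xij
  rw [div_eq_inv_mul, one_div]

/-- The filter version for all filters, from `core`. -/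
theorem mainP_of_core (RH : RiemannHypothesis) (h : CoreP) : H84.AH.MainP :=
  fun _ hF _ _ ha hb => main_of_core RH hF (h.coreFF hF) ha hb

/-- The dichotomy, from `core`. -/
theorem dichotomy_of_core (RH : RiemannHypothesis) (h : CoreP) {ε : ℝ} (hε : 0 < ε) :
    ∃ c b₀ : ℝ, 0 < c ∧ 0 < b₀ ∧ b₀ < 1 / 2 ∧ ∀ᶠ T in atTop,
      (1 + c) * PC.norm T ≤ PC.pairCount T 0 b₀ ∨
        ∀ a b : ℝ, |a| ≤ 1 / ε → |b| ≤ 1 / ε → (∀ k : ℤ, ε ≤ |a - k / 2|) → (∀ k : ℤ, ε ≤ |b - k / 2|) →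
          |PC.pairCount T a b - H68.AH.predAH a b * PC.norm T| ≤ ε * PC.norm T :=
  H84.AH.dichotomy RH (mainP_of_core RH h) hε

end Pool.Agent.H87.AH
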