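import Mathlib
import Pool.Agent.H87.AH.O3
import Pool.Agent.H29.AH.St
import Pool.Agent.H14.GP.Vb

/-!
# MP_103a5c_AH, block O4: helper29's `SMAIN` implies `CoreFF`
-/

open MeasureTheory Set Filter Topology
open scoped Real ENNReal

namespace Pool.Agent.H87.AH

open Pool.Agent Pool.Agent.H6 Pool.Agent.H14.GP

lemma DS_eq_ev (X : DPoly) (ψ : ℝ) (hX : ∀ n, X.coeff n ≠ 0 → 1 ≤ n) (t : ℝ) :
    DS X.coeff.support (fun n => Complex.exp ((ψ : ℂ) * Complex.I) * (X.coeff n : ℂ)) t =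
      Complex.exp ((ψ : ℂ) * Complex.I) * ev t X := by
  rw [ev_eq, Finset.mul_sum]
  unfold DS
  apply Finset.sum_congr rfl
  intro n hn
  have hn1 : 1 ≤ n := hX n (Finsupp.mem_support_iff.mp hn)
  have hn0 : n ≠ 0 := by omega
  rw [mul_assoc]
  congr 2
  change _ = (if n = 0 then (0:ℂ) else Complex.exp (-((t * Real.log n : ℝ) : ℂ) * Complex.I))
  rw [if_neg hn0]
  congr 1
  push_cast
  ring

lemma aS_eq (b ψ : ℝ) (X : DPoly) (hX : ∀ n, X.coeff n ≠ 0 → 1 ≤ n) (T t : ℝ) :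
    H29.AH.aS b ψ X T t = aS X.coeff.support (fun n => Complex.exp ((ψ : ℂ) * Complex.I) * (X.coeff n : ℂ)) 0
      ((1 - b) / (2 * b) * Real.log T) t := by
  unfold H29.AH.aS aS
  rw [DS_eq_ev X ψ hX, ← mul_assoc, ← Complex.exp_add]
  congr 3
  push_cast
  ring

theorem coreFF_of_SMAIN {l : Filter ℝ} (hl : l ≤ atTop) (h : H29.AH.SMAIN l) : CoreFF l := by
  intro p δ₁ α β hp hδ₁ hα hαβ hβ
  set δ : ℝ := min p (min α (1 - β)) with hδdef
  have hδ : 0 < δ := by
    rw [hδdef]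
    exact lt_min hp (lt_min hα (by linarith))
  have hδp : δ ≤ p := min_le_left _ _
  have hδα : δ ≤ α := (min_le_right _ _).trans (min_le_left _ _)
  have hδβ : δ ≤ 1 - β := (min_le_right _ _).trans (min_le_right _ _)
  obtain ⟨b, hb1, hb0, hb2, θ, hθ0, hθ1, c, hS⟩ := h δ hδ δ₁ hδ₁
  refine ⟨b, θ, 1, max c 0, hb1, hb2, hθ0, hθ1, one_pos, le_max_right _ _, ?_⟩
  filter_upwards [hS, hl (eventually_ge_atTop 1)] with T hT hT1
  obtain ⟨X, ψ, Bad, hX, hX1, hl1, -, hBv, hs⟩ := hT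
  have hT0 : 0 < T := by linarith
  have hL : 0 ≤ Real.log T := Real.log_nonneg hT1
  have hXn : ∀ n, X.coeff n ≠ 0 → 1 ≤ n := fun n hn => (hX n hn).1
  have hexp : ‖Complex.exp ((ψ : ℂ) * Complex.I)‖ = 1 := Complex.norm_exp_ofReal_mul_I ψ
  have hsub : Icc (α * T) (β * T) ⊆ Icc (δ * T) ((1 - δ) * T) := by
    apply Icc_subset_Icc
    · exact mul_le_mul_of_nonneg_right hδα hT0.le
    · exact mul_le_mul_of_nonneg_right (by linarith) hT0.le
  set N : Set ℝ := ⋃ i : PC.Z, {gZ i + π * b / Real.log T, gZ i - π * b / Real.log T} with hN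
  have hNc : N.Countable := by
    rw [hN]
    exact countable_iUnion fun i => (countable_singleton _).insert _
  refine ⟨X.coeff.support, fun n => Complex.exp ((ψ : ℂ) * Complex.I) * (X.coeff n : ℂ), Bad ∪ N, ?_, ?_, ?_, ?_, ?_, ?_⟩
  · rw [Finsupp.mem_support_iff, hX1]; norm_num
  · intro n hn
    obtain ⟨a1, a2⟩ := hX n (Finsupp.mem_support_iff.mp hn)
    refine ⟨a1, ?_⟩
    have hn0 : (0:ℝ) < n := by exact_mod_cast a1
    have := Real.log_le_log hn0 a2
    rwa [Real.log_rpow hT0] at this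
  · rw [norm_mul, hexp, hX1]; simp
  · have e : ∑ n ∈ X.coeff.support, ‖Complex.exp ((ψ : ℂ) * Complex.I) * (X.coeff n : ℂ)‖ = l1 X := by
      unfold l1
      apply Finset.sum_congr rfl
      intro n _
      rw [norm_mul, hexp]; simp
    rw [e]
    refine hl1.trans ?_
    rw [Real.rpow_def_of_pos hT0, mul_comm]
    apply Real.exp_le_exp.mpr
    exact mul_le_mul_of_nonneg_right (le_max_left _ _) hL
  · have hfin : volume (Bad ∩ Icc (δ * T) ((1 - δ) * T)) ≠ ∞ := by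
      refine ((measure_mono inter_subset_right).trans_lt ?_).ne
      rw [Real.volume_Icc]; exact ENNReal.ofReal_lt_top
    have h1 : volume.real ((Bad ∪ N) ∩ Icc (α * T) (β * T)) ≤ volume.real (Bad ∩ Icc (δ * T) ((1 - δ) * T)) := by
      have h3 : volume ((Bad ∪ N) ∩ Icc (α * T) (β * T)) ≤ volume (Bad ∩ Icc (δ * T) ((1 - δ) * T)) := by
        rw [union_inter_distrib_right]
        calc volume (Bad ∩ Icc (α * T) (β * T) ∪ N ∩ Icc (α * T) (β * T))
            ≤ volume (Bad ∩ Icc (α * T) (β * T)) + volume (N ∩ Icc (α * T) (β * T)) := measure_union_le _ _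
          _ ≤ volume (Bad ∩ Icc (δ * T) ((1 - δ) * T)) + 0 := by
              apply add_le_add (measure_mono (inter_subset_inter_right _ hsub))
              exact (le_of_eq ((hNc.mono inter_subset_left).measure_zero volume))
          _ = _ := add_zero _
      exact ENNReal.toReal_mono hfin h3
    have h2 : δ * T ≤ p * T := mul_le_mul_of_nonneg_right hδp hT0.le
    linarith
  · intro t ht htB hz
    have htB1 : t ∉ Bad := fun hh => htB (Or.inl hh)
    have hz' : ∀ i : PC.Z, π * b / Real.log T < |t - gZ i| := by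
      intro i
      rcases (hz i).lt_or_eq with h1 | h1
      · exact h1
      · exfalso
        apply htB
        right
        rw [hN, mem_iUnion]
        refine ⟨i, ?_⟩
        rw [mem_insert_iff, mem_singleton_iff]
        rcases abs_cases (t - gZ i) with ⟨e, _⟩ | ⟨e, _⟩
        · left; rw [h1, e]; ring
        · right; rw [h1, e]; ring
    have := hs t (hsub ht) htB1 hz'
    rwa [aS_eq b ψ X hXn, aS_eq b ψ X hXn] at this

/-- The Alternative Hypothesis values along a filter, from `SMAIN`. -/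
theorem main_of_SMAIN (RH : RiemannHypothesis) {FF : Filter ℝ} (hF : H68.AH.Hyp FF) (h : H29.AH.SMAIN FF) {a b : ℝ}
    (ha : ∀ k : ℤ, a ≠ k / 2) (hb : ∀ k : ℤ, b ≠ k / 2) :
    Tendsto (fun T => PC.pairCount T a b / PC.norm T) FF (𝓝 (H68.AH.predAH a b)) :=
  main_of_core RH hF (coreFF_of_SMAIN hF.le h) ha hb

/-- The dichotomy, from `SMAIN` for all filters. -/
theorem dichotomy_of_SMAIN (RH : RiemannHypothesis) (h : ∀ FF : Filter ℝ, H68.AH.Hyp FF → H29.AH.SMAIN FF) {ε : ℝ}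
    (hε : 0 < ε) : ∃ c b₀ : ℝ, 0 < c ∧ 0 < b₀ ∧ b₀ < 1 / 2 ∧ ∀ᶠ T in atTop,
      (1 + c) * PC.norm T ≤ PC.pairCount T 0 b₀ ∨
        ∀ a b : ℝ, |a| ≤ 1 / ε → |b| ≤ 1 / ε → (∀ k : ℤ, ε ≤ |a - k / 2|) → (∀ k : ℤ, ε ≤ |b - k / 2|) →
          |PC.pairCount T a b - H68.AH.predAH a b * PC.norm T| ≤ ε * PC.norm T :=
  H84.AH.dichotomy RH (fun FF hF _ _ ha hb => main_of_SMAIN RH hF (h FF hF) ha hb) hε

end Pool.Agent.H87.AH
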