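import Mathlib
import Pool.Agent.H6.Glue
import Pool.Agent.H87.AH.J4

/-!
# MP_103a5c_AH: interface between the analytic part and the counting part

`Sgn b c₁ c₂ θ C κ δ T S d ψ Bad`: `D` is a Dirichlet polynomial of length `T^θ`, `a(t) = Re (e^{i(ψ + λ log T t)} D(t))`,
`λ = (1-b)/(2b)`, `h = π b / log T`; for `t ∈ [c₁ T, c₂ T]` outside the set `Bad` of measure at most `δ T`, if there is no
zero of zeta in `(t-h, t+h)`, then `a(t-h) a(t+h) < 0`.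
-/

open MeasureTheory Set Filter Topology
open scoped Real ENNReal

namespace Pool.Agent.H87.AH

open Pool.Agent Pool.Agent.H6

structure Sgn (b c₁ c₂ θ C κ δ T : ℝ) (S : Finset ℕ) (d : ℕ → ℂ) (ψ : ℝ) (Bad : Set ℝ) : Prop where
  one_mem : 1 ∈ S
  supp : ∀ n ∈ S, 1 ≤ n ∧ Real.log n ≤ θ * Real.log T
  lead : κ ≤ ‖d 1‖
  l1 : ∑ n ∈ S, ‖d n‖ ≤ Real.exp (C * Real.log T)
  meas : MeasurableSet Bad
  vol : volume Bad ≤ ENNReal.ofReal (δ * T)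
  sign : ∀ t, c₁ * T ≤ t → t ≤ c₂ * T → t ∉ Bad → (∀ i : PC.Z, π * b / Real.log T ≤ |gZ i - t|) →
    aS S d ψ ((1 - b) / (2 * b) * Real.log T) (t - π * b / Real.log T) *
      aS S d ψ ((1 - b) / (2 * b) * Real.log T) (t + π * b / Real.log T) < 0

/-- What the analytic part has to prove (for all `b < 1/2`, `0 < c₁ < c₂ < 1`, `δ > 0`). -/
def SgnAll : Prop :=
  ∀ b : ℝ, 0 < b → b < 1 / 2 → ∀ c₁ c₂ δ : ℝ, 0 < c₁ → c₁ < c₂ → c₂ < 1 → 0 < δ →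
    ∃ θ C κ δ₁ b₀ : ℝ, θ < (1 - b) / b ∧ 0 ≤ C ∧ 0 < κ ∧ 0 < δ₁ ∧ 0 < b₀ ∧ b₀ < 1 / 2 ∧
      ∀ᶠ T in atTop, PC.pairCount T 0 b₀ ≤ (1 + δ₁) * PC.norm T →
        ∃ (S : Finset ℕ) (d : ℕ → ℂ) (ψ : ℝ) (Bad : Set ℝ), Sgn b c₁ c₂ θ C κ δ T S d ψ Bad

end Pool.Agent.H87.AH
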